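import Mathlib

/-! Definitions: locally linear involutions, equivariant tubular neighbourhoods of a
one-dimensional component of the fixed point set, and their equivalence. -/

open Set Topology Filter

namespace Pool.Agent.TubNbhd

/-- The fibre of the normal bundle. -/
abbrev V3 : Type := EuclideanSpace ℝ (Fin 3)

/-- `ρ` is a locally linear involution of the four-manifold `M`. -/
structure IsLocLinInvolution {M : Type*} [TopologicalSpace M] (ρ : M ≃ₜ M) : Prop where
  involutive : ∀ m, ρ (ρ m) = m
  ne_id : ∃ m, ρ m ≠ m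
  locLin : ∀ m, ρ m = m → ∃ (e : EuclideanSpace ℝ (Fin 4) → M)
    (L : EuclideanSpace ℝ (Fin 4) →ₗ[ℝ] EuclideanSpace ℝ (Fin 4)),
      IsOpenEmbedding e ∧ m ∈ range e ∧ ∀ y, ρ (e y) = e (L y)

/-- `F` is a connected component of the fixed point set of `ρ`. -/
def IsFixedComponent {M : Type*} [TopologicalSpace M] (ρ : M ≃ₜ M) (F : Set M) : Prop :=
  ∃ x, ρ x = x ∧ F = connectedComponentIn {m | ρ m = m} x

/-- An equivariant tubular neighbourhood of `F`, parametrised by the product bundle `F × ℝ³`. -/
structure EquivTub {M : Type*} [TopologicalSpace M] (ρ : M ≃ₜ M) (F : Set M) where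
  toFun : F × V3 → M
  isOpenEmbedding : IsOpenEmbedding toFun
  zero_section : ∀ x : F, toFun (x, 0) = x
  lin : F → (V3 →ₗ[ℝ] V3)
  equivariant : ∀ (x : F) (v : V3), ρ (toFun (x, v)) = toFun (x, lin x v)

/-- An isomorphism of the product bundle `F × ℝ³`. -/
structure BundleIso {M : Type*} [TopologicalSpace M] (F : Set M) where
  toHomeo : (F × V3) ≃ₜ (F × V3)
  lin : F → (V3 →ₗ[ℝ] V3)
  apply : ∀ (x : F) (v : V3), toHomeo (x, v) = (x, lin x v)

/-- An equivariant ambient isotopy. -/
structure AmbientIsotopy {M : Type*} [TopologicalSpace M] (ρ : M ≃ₜ M) where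
  map : unitInterval → M ≃ₜ M
  continuous_map : Continuous fun p : unitInterval × M => map p.1 p.2
  map_zero : ∀ m, map 0 m = m
  equivariant : ∀ t m, map t (ρ m) = ρ (map t m)

/-- Two equivariant tubular neighbourhoods are equivalent near the subset `Q` of `F`: some
equivariant ambient isotopy, whose final homeomorphism fixes `F` pointwise, carries one to the
other, up to an isomorphism of bundles, near each point of `Q` on the zero section. -/
def EquivalentNear {M : Type*} [TopologicalSpace M] {ρ : M ≃ₜ M} {F : Set M}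
    (φ ψ : EquivTub ρ F) (Q : Set M) : Prop :=
  ∃ (H : AmbientIsotopy ρ) (Θ : BundleIso F), (∀ x ∈ F, H.map 1 x = x) ∧
    ∀ x : F, (x : M) ∈ Q → ∀ᶠ z in 𝓝 (x, (0 : V3)),
      H.map 1 (ψ.toFun z) = φ.toFun (Θ.toHomeo z)

end Pool.Agent.TubNbhd
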