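import Pool.Agent.TubNbhd.Extend
import Pool.Agent.TubNbhd.Defs

/-! Spreading of agreement along a component of the fixed point set. -/

open Set Topology Filter

namespace Pool.Agent.TubNbhd

section Scaled

variable {M : Type*} [TopologicalSpace M] [T2Space M]
variable {V : Type*} [NormedAddCommGroup V] [ProperSpace V]

/-- rescaling of the line -/
noncomputable def rescale (r : ℝ) (hr : 0 < r) : (ℝ × V) ≃ₜ (ℝ × V) :=
  (Homeomorph.mulLeft₀ r hr.ne').prodCongr (Homeomorph.refl V)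

omit [ProperSpace V] in
theorem rescale_apply (r : ℝ) (hr : 0 < r) (x : ℝ) (v : V) :
    rescale r hr (x, v) = (r * x, v) := rfl

theorem push_main' [LocallyCompactSpace M] [SigmaCompactSpace M] {φ ψ : ℝ × V → M}
    (hφ : IsOpenEmbedding φ) (hψ : IsOpenEmbedding ψ)
    (haxis : ∀ x, ψ (x, 0) = φ (x, 0)) {ρ : M → M} (hρ : ∀ m, ρ (ρ m) = m)
    (hρφ : ∀ x v, ρ (φ (x, v)) = φ (x, -v)) (hρψ : ∀ x v, ρ (ψ (x, v)) = ψ (x, -v))
    (hcl : IsClosedEmbedding fun x : ℝ => φ (x, 0)) {W : Set M} (hW : IsOpen W)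
    (hφW : ∀ x, φ (x, 0) ∈ W)
    (hag : ∀ᶠ z in 𝓝 ((0 : ℝ), (0 : V)), ψ z = φ z) :
    ∃ H : Iso M, Good ρ W (fun x : ℝ => φ (x, 0)) H ∧
      ∀ x : ℝ, ∀ᶠ z in 𝓝 (x, (0 : V)), H (1, ψ z) = (1, φ z) := by
  have h1 := hag.eventually_nhds
  have h2 : ∀ᶠ x : ℝ in 𝓝 0, ∀ᶠ z in 𝓝 (x, (0 : V)), ψ z = φ z := by
    have hc : Tendsto (fun x : ℝ => (x, (0 : V))) (𝓝 0) (𝓝 (0, 0)) :=
      (Continuous.prodMk_left (0 : V)).tendsto 0
    exact hc.eventually h1
  obtain ⟨r, hr, hr'⟩ := Metric.eventually_nhds_iff.1 h2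
  have hr2 : 0 < r / 2 := by positivity
  set s := rescale (V := V) (r / 2) hr2 with hs
  have hsa : ∀ x v, s (x, v) = (r / 2 * x, v) := rescale_apply _ _
  obtain ⟨H, hH, hH'⟩ := push_main (φ := φ ∘ s) (ψ := ψ ∘ s) (hφ.comp s.isOpenEmbedding)
    (hψ.comp s.isOpenEmbedding) (fun x => haxis _) hρ
    (fun x v => by
      simp only [Function.comp_apply, hsa]
      exact hρφ _ _)
    (fun x v => by
      simp only [Function.comp_apply, hsa]
      exact hρψ _ _)
    (hcl.comp (Homeomorph.mulLeft₀ (r / 2) hr2.ne').isClosedEmbedding) hW (fun x => hφW _)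
    (fun x hx => by
      have h3 : ∀ᶠ z in 𝓝 (s (x, (0 : V))), ψ z = φ z := by
        rw [hsa]
        apply hr'
        rw [dist_zero_right, Real.norm_eq_abs, abs_mul, abs_of_pos hr2]
        nlinarith
      exact s.continuous.continuousAt.eventually h3)
  refine ⟨H, ⟨hH.level, hH.zero, hH.comm, hH.off, ?_⟩, ?_⟩
  · intro t x
    have h3 := hH.fix t ((r / 2)⁻¹ * x)
    simp only [Function.comp_apply, hsa] at h3
    rw [mul_inv_cancel_left₀ hr2.ne'] at h3
    exact h3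
  · intro x
    have h3 := hH' ((r / 2)⁻¹ * x)
    have h4 : s.symm (x, (0 : V)) = ((r / 2)⁻¹ * x, 0) := by
      rw [Homeomorph.symm_apply_eq, hsa, mul_inv_cancel_left₀ hr2.ne']
    have h5 := (s.symm.continuous.tendsto (x, (0 : V))).eventually
      (p := fun z => H (1, (ψ ∘ s) z) = (1, (φ ∘ s) z)) (by rw [h4]; exact h3)
    filter_upwards [h5] with z hz
    simpa using hz

end Scaled

section Spread

variable {M : Type*} [TopologicalSpace M] [T2Space M] [LocallyCompactSpace M]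
  [SecondCountableTopology M]

/-- raw tubes around `F` -/
structure RawTube (ρ : M ≃ₜ M) (F : Set M) (g : F × V3 → M) : Prop where
  emb : IsOpenEmbedding g
  zero : ∀ x : F, g (x, 0) = x
  neg : ∀ (x : F) (v : V3), ρ (g (x, v)) = g (x, -v)

theorem spread {ρ : M ≃ₜ M} (hρ : ∀ m, ρ (ρ m) = m) {F : Set M} (hFc : IsClosed F)
    (hfix : ∀ x ∈ F, ρ x = x) {S : Set M} (hS : S = ∅ ∨ ∃ p ∈ F, S = {p} ∧ IsCompact F)
    (e : ↥(F \ S) ≃ₜ ℝ) {g k : F × V3 → M} (hg : RawTube ρ F g) (hk : RawTube ρ F k)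
    {W : Set M} (hW : IsOpen W) (hFW : F ⊆ W) (q : F)
    (hq : (q : M) ∉ S) (hloc : ∀ᶠ z in 𝓝 (q, (0 : V3)), k z = g z) :
    ∃ H : AmbientIsotopy ρ, (∀ t, ∀ x ∈ F, H.map t x = x) ∧ (∀ t, ∀ m ∉ W, H.map t m = m) ∧
      ∀ x : F, (x : M) ∉ S → ∀ᶠ z in 𝓝 (x, (0 : V3)), H.map 1 (k z) = g z := by
  classical
  have hSF : S ⊆ F := by
    rcases hS with h | ⟨p, hp, h, _⟩
    · rw [h]; exact empty_subset _
    · rw [h]; exact singleton_subset_iff.2 hp
  have hSc : IsClosed S := by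
    rcases hS with h | ⟨p, hp, h, _⟩
    · rw [h]; exact isClosed_empty
    · rw [h]; exact isClosed_singleton
  -- normalise e
  obtain ⟨e, he⟩ : ∃ e' : ↥(F \ S) ≃ₜ ℝ, e' ⟨q, q.2, hq⟩ = 0 := by
    refine ⟨e.trans (Homeomorph.addRight (-(e ⟨q, q.2, hq⟩))), ?_⟩
    simp
  have hρS : ∀ m, m ∈ Sᶜ → ρ m ∈ Sᶜ := by
    intro m hm hm'
    apply hm
    have h1 := hfix _ (hSF hm')
    rw [hρ] at h1
    rw [h1]
    exact hm'
  -- shrink W
  obtain ⟨W, hWW, hW, hFW, hSW⟩ : ∃ W' : Set M, W' ⊆ W ∧ IsOpen W' ∧ F ⊆ W' ∧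
      ∀ p ∈ S, S = {p} ∧ ∃ K : Set M, IsCompact K ∧ W' ⊆ K := by
    rcases hS with h | ⟨p, hp, h, hFk⟩
    · refine ⟨W, Subset.rfl, hW, hFW, ?_⟩
      intro p hp
      rw [h] at hp
      exact absurd hp (notMem_empty _)
    · obtain ⟨K, hK, hFK⟩ := exists_compact_superset hFk
      refine ⟨W ∩ interior K, inter_subset_left, hW.inter isOpen_interior,
        subset_inter hFW hFK, ?_⟩
      intro p' hp'
      rw [h, mem_singleton_iff] at hp'
      rw [hp']
      exact ⟨h, K, hK, inter_subset_right.trans interior_subset⟩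
  -- the open embedding J
  set j : ↥(F \ S) → ↥F := Set.inclusion sdiff_subset with hj
  have hjo : IsOpenEmbedding j := by
    refine ⟨IsEmbedding.inclusion sdiff_subset, ?_⟩
    have : range j = Subtype.val ⁻¹' (Sᶜ) := by
      rw [hj, Set.range_inclusion]
      ext x
      simp
    rw [this]
    exact hSc.isOpen_compl.preimage continuous_subtype_val
  set J : ℝ × V3 → F × V3 := Prod.map (j ∘ e.symm) id with hJ
  have hJo : IsOpenEmbedding J := (hjo.comp e.symm.isOpenEmbedding).prodMap IsOpenEmbedding.id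
  -- restriction of raw tubes
  have hav : ∀ {g : F × V3 → M}, RawTube ρ F g → ∀ w, g (J w) ∈ Sᶜ := by
    intro g hg w hw
    have h1 : g (J w) = g (⟨g (J w), hSF hw⟩, 0) := by
      rw [hg.zero]
    have h2 := hg.emb.injective h1
    have h3 : ((J w).1 : M) = g (J w) := by
      have := congrArg (fun z : F × V3 => (z.1 : M)) h2
      exact this
    have h4 : ((J w).1 : M) ∉ S := (e.symm w.1).2.2
    rw [h3] at h4
    exact h4 hw
  set M' := ↥(Sᶜ) with hM'
  have : LocallyCompactSpace M' := hSc.isOpen_compl.locallyCompactSpace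
  have hre : ∀ {g : F × V3 → M} (hg : RawTube ρ F g),
      IsOpenEmbedding (fun w : ℝ × V3 => (⟨g (J w), hav hg w⟩ : M')) := by
    intro g hg
    refine IsOpenEmbedding.of_comp _ hSc.isOpen_compl.isOpenEmbedding_subtypeVal ?_
    exact hg.emb.comp hJo
  set ρ' : M' → M' := fun m => ⟨ρ m, hρS m m.2⟩ with hρ'
  have hzero : ∀ {g : F × V3 → M} (_ : RawTube ρ F g) (x : ℝ),
      g (J (x, 0)) = (e.symm x : M) := by
    intro g hg x
    have : J (x, (0 : V3)) = (j (e.symm x), 0) := rfl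
    rw [this, hg.zero]
  have hclemb : IsClosedEmbedding fun x : ℝ => (⟨g (J (x, 0)), hav hg (x, 0)⟩ : M') := by
    have h1 : (fun x : ℝ => (⟨g (J (x, 0)), hav hg (x, 0)⟩ : M'))
        = (fun y : ↥(F \ S) => (⟨(y : M), y.2.2⟩ : M')) ∘ e.symm := by
      funext x
      exact Subtype.ext (hzero hg x)
    rw [h1]
    refine IsClosedEmbedding.comp ⟨?_, ?_⟩ e.symm.isClosedEmbedding
    · refine IsEmbedding.of_comp (g := (Subtype.val : M' → M)) (by fun_prop)
        continuous_subtype_val ?_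
      exact IsEmbedding.subtypeVal
    · have : range (fun y : ↥(F \ S) => (⟨(y : M), y.2.2⟩ : M')) = Subtype.val ⁻¹' F := by
        ext m
        constructor
        · rintro ⟨y, rfl⟩
          exact y.2.1
        · intro hm
          exact ⟨⟨m, hm, m.2⟩, rfl⟩
      rw [this]
      exact hFc.preimage continuous_subtype_val
  obtain ⟨G, hG, hGag⟩ := push_main' (M := M') (V := V3) (hre hg) (hre hk)
    (fun x => Subtype.ext (by
      show k (J (x, 0)) = g (J (x, 0))
      rw [hzero hg, hzero hk])) (ρ := ρ')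
    (fun m => Subtype.ext (hρ m))
    (fun x v => Subtype.ext (hg.neg _ _)) (fun x v => Subtype.ext (hk.neg _ _)) hclemb
    (W := Subtype.val ⁻¹' W) (hW.preimage continuous_subtype_val)
    (fun x => by
      show g (J (x, 0)) ∈ W
      rw [hzero hg]
      exact hFW (e.symm x).2.1)
    (by
      have hJ0 : J (0, 0) = (q, (0 : V3)) := by
        have : e.symm 0 = ⟨q, q.2, hq⟩ := by
          rw [Homeomorph.symm_apply_eq, he]
        rw [hJ, Prod.map_apply, Function.comp_apply, this]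
        rfl
      have h1 : ∀ᶠ w in 𝓝 ((0 : ℝ), (0 : V3)), k (J w) = g (J w) := by
        have := hJo.continuous.tendsto ((0 : ℝ), (0 : V3))
        rw [hJ0] at this
        exact this.eventually hloc
      filter_upwards [h1] with w hw
      exact Subtype.ext hw)
  have hoff : ∀ t (m : M'), (m : M) ∉ W → G (t, m) = (t, m) := fun t m hm => hG.off t m hm
  have hext : ∀ t m, extHomeo hSc hSW G hG.level hoff t m = ext S G (t, m) := fun _ _ => rfl
  refine ⟨⟨extHomeo hSc hSW G hG.level hoff, ?_, ?_, ?_⟩, ?_, ?_, ?_⟩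
  · exact continuous_ext hSc hSW G hG.level hoff
  · intro m
    rw [hext]
    by_cases hm : m ∈ S
    · rw [ext_of_mem G 0 hm]
    · rw [show m = ((⟨m, hm⟩ : M') : M) from rfl, ext_of_not_mem, hG.zero]
  · intro t m
    rw [hext, hext]
    by_cases hm : m ∈ S
    · have h1 := hfix m (hSF hm)
      rw [ext_of_mem G t hm, h1, ext_of_mem G t hm]
    · have h2 : ρ m = ((⟨ρ m, hρS m hm⟩ : M') : M) := rfl
      rw [h2, ext_of_not_mem, show ext S G (t, m) = ext S G (t, ((⟨m, hm⟩ : M') : M)) from rfl,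
        ext_of_not_mem]
      have h3 := hG.comm (t, ⟨m, hm⟩)
      have h4 : ρ' (⟨m, hm⟩ : M') = (⟨ρ m, hρS m hm⟩ : M') := rfl
      simp only at h3
      rw [h4] at h3
      rw [h3]
  · intro t x hx
    show ext S G (t, x) = x
    by_cases hm : x ∈ S
    · rw [ext_of_mem G t hm]
    · have h3 := hG.fix t (e ⟨x, hx, hm⟩)
      have h4 : (⟨g (J (e ⟨x, hx, hm⟩, 0)), hav hg (e ⟨x, hx, hm⟩, 0)⟩ : M') = ⟨x, hm⟩ := by
        refine Subtype.ext ?_
        show g (J (e ⟨x, hx, hm⟩, 0)) = x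
        rw [hzero hg, Homeomorph.symm_apply_apply]
      rw [h4] at h3
      rw [show ext S G (t, x) = ext S G (t, ((⟨x, hm⟩ : M') : M)) from rfl, ext_of_not_mem, h3]
  · intro t m hm
    show ext S G (t, m) = m
    have hm' : m ∉ W := fun h => hm (hWW h)
    by_cases hmS : m ∈ S
    · rw [ext_of_mem G t hmS]
    · rw [show ext S G (t, m) = ext S G (t, ((⟨m, hmS⟩ : M') : M)) from rfl, ext_of_not_mem,
        hoff t ⟨m, hmS⟩ hm']
  · intro x hx
    show ∀ᶠ z in 𝓝 (x, (0 : V3)), ext S G (1, k z) = g z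
    have hJx : J (e ⟨x, x.2, hx⟩, 0) = (x, (0 : V3)) := by
      rw [hJ, Prod.map_apply, Function.comp_apply, Homeomorph.symm_apply_apply]
      rfl
    rw [← hJx, ← hJo.map_nhds_eq, Filter.eventually_map]
    filter_upwards [hGag (e ⟨x, x.2, hx⟩)] with w hw
    have h5 : k (J w) = ((⟨k (J w), hav hk w⟩ : M') : M) := rfl
    rw [h5, ext_of_not_mem, hw]

end Spread

end Pool.Agent.TubNbhd
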