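import Pool.Agent.TubNbhd.Main

/-! Extension of isotopies of the complement of a point over the point. -/

open Set Topology Filter

namespace Pool.Agent.TubNbhd

variable {M : Type*} [TopologicalSpace M] [T2Space M]

open Classical in
/-- extension by the identity over `S`. -/
noncomputable def ext (S : Set M) (G : Iso ↥(Sᶜ)) (p : unitInterval × M) : M :=
  if h : p.2 ∈ Sᶜ then ((G (p.1, ⟨p.2, h⟩)).2 : M) else p.2

omit [T2Space M] in
theorem ext_of_not_mem {S : Set M} (G : Iso ↥(Sᶜ)) (t : unitInterval) (m : ↥(Sᶜ)) :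
    ext S G (t, (m : M)) = ((G (t, m)).2 : M) := by
  unfold ext
  rw [dif_pos m.2]

omit [T2Space M] in
theorem ext_of_mem {S : Set M} (G : Iso ↥(Sᶜ)) (t : unitInterval) {m : M} (hm : m ∈ S) :
    ext S G (t, m) = m := by
  unfold ext
  rw [dif_neg]
  exact fun h => h hm

theorem continuous_ext {S W : Set M} (hSc : IsClosed S)
    (hSW : ∀ p ∈ S, S = {p} ∧ ∃ K : Set M, IsCompact K ∧ W ⊆ K) (G : Iso ↥(Sᶜ))
    (hlev : ∀ p, (G p).1 = p.1) (hoff : ∀ t (m : ↥(Sᶜ)), (m : M) ∉ W → G (t, m) = (t, m)) :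
    Continuous (ext S G) := by
  classical
  rw [continuous_iff_continuousAt]
  rintro ⟨t₀, p⟩
  by_cases hp : p ∈ S
  · obtain ⟨hS, K, hK, hWK⟩ := hSW p hp
    unfold ContinuousAt
    rw [ext_of_mem G t₀ hp, Filter.tendsto_def]
    intro O' hO'
    obtain ⟨O, hOO', hO, hpO⟩ := mem_nhds_iff.1 hO'
    -- the compact set D
    have hD : IsCompact (K \ O) := hK.diff hO
    have hDS : ∀ m ∈ K \ O, m ∈ Sᶜ := by
      rintro m ⟨_, hm⟩ hmS
      rw [hS, mem_singleton_iff] at hmS
      rw [hmS] at hm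
      exact hm hpO
    set D : Set ↥(Sᶜ) := Subtype.val ⁻¹' (K \ O) with hDdef
    have hDc : IsCompact D := by
      rw [Subtype.isCompact_iff]
      convert hD
      rw [hDdef, Subtype.image_preimage_coe]
      exact inter_eq_right.2 hDS
    set D₂ : Set M := (fun q : unitInterval × ↥(Sᶜ) => (q.2 : M)) ''
      (G.symm '' ((univ : Set unitInterval) ×ˢ D)) with hD₂
    have hD₂c : IsCompact D₂ :=
      ((isCompact_univ.prod hDc).image G.symm.continuous).image
        (continuous_subtype_val.comp continuous_snd)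
    have hpD₂ : p ∉ D₂ := by
      rintro ⟨q, _, hq⟩
      apply q.2.2
      have hq' : (q.2 : M) = p := hq
      rw [hq']
      exact hp
    have hN : O ∩ D₂ᶜ ∈ 𝓝 p := inter_mem (hO.mem_nhds hpO) (hD₂c.isClosed.isOpen_compl.mem_nhds hpD₂)
    have hN2 : (univ : Set unitInterval) ×ˢ (O ∩ D₂ᶜ) ∈ 𝓝 (t₀, p) := prod_mem_nhds univ_mem hN
    filter_upwards [hN2]
    rintro ⟨t, m⟩ ⟨_, hmO, hmD⟩
    apply hOO'
    by_cases hm : m ∈ S
    · show ext S G (t, m) ∈ O
      rw [ext_of_mem G t hm]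
      exact hmO
    · show ext S G (t, ((⟨m, hm⟩ : ↥(Sᶜ)) : M)) ∈ O
      rw [ext_of_not_mem]
      by_contra hcon
      have h1 : G (t, ⟨m, hm⟩) = (t, (G (t, ⟨m, hm⟩)).2) := Prod.ext (hlev _) rfl
      by_cases hK' : ((G (t, ⟨m, hm⟩)).2 : M) ∈ K
      · apply hmD
        refine ⟨(t, ⟨m, hm⟩), ⟨(t, (G (t, ⟨m, hm⟩)).2), ⟨mem_univ _, hK', hcon⟩, ?_⟩, rfl⟩
        rw [Homeomorph.symm_apply_eq]
        exact h1.symm
      · have h2 := hoff t (G (t, ⟨m, hm⟩)).2 (fun h => hK' (hWK h))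
        rw [← h1] at h2
        have h3 := G.injective h2
        rw [h3] at hcon
        exact hcon hmO
  · have hopen : IsOpenEmbedding (Prod.map id Subtype.val :
        unitInterval × ↥(Sᶜ) → unitInterval × M) :=
      IsOpenEmbedding.id.prodMap hSc.isOpen_compl.isOpenEmbedding_subtypeVal
    have h1 : ((t₀, p) : unitInterval × M)
        = (Prod.map id Subtype.val : unitInterval × ↥(Sᶜ) → unitInterval × M) (t₀, ⟨p, hp⟩) := rfl
    rw [h1, ← hopen.continuousAt_iff]
    have h2 : ext S G ∘ (Prod.map id Subtype.val : unitInterval × ↥(Sᶜ) → unitInterval × M)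
        = fun q => ((G q).2 : M) := by
      funext q
      exact ext_of_not_mem G q.1 q.2
    rw [h2]
    have := G.continuous
    fun_prop

/-- the time `t` homeomorphism of the extension -/
noncomputable def extHomeo {S W : Set M} (hSc : IsClosed S)
    (hSW : ∀ p ∈ S, S = {p} ∧ ∃ K : Set M, IsCompact K ∧ W ⊆ K) (G : Iso ↥(Sᶜ))
    (hlev : ∀ p, (G p).1 = p.1) (hoff : ∀ t (m : ↥(Sᶜ)), (m : M) ∉ W → G (t, m) = (t, m))
    (t : unitInterval) : M ≃ₜ M where
  toFun m := ext S G (t, m)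
  invFun m := ext S G.symm (t, m)
  left_inv := by
    intro m
    show ext S G.symm (t, ext S G (t, m)) = m
    by_cases hm : m ∈ S
    · rw [ext_of_mem G t hm, ext_of_mem _ t hm]
    · have h1 : G (t, ⟨m, hm⟩) = (t, (G (t, ⟨m, hm⟩)).2) := Prod.ext (hlev _) rfl
      rw [show m = ((⟨m, hm⟩ : ↥(Sᶜ)) : M) from rfl, ext_of_not_mem, ext_of_not_mem, ← h1,
        Homeomorph.symm_apply_apply]
  right_inv := by
    intro m
    show ext S G (t, ext S G.symm (t, m)) = m
    by_cases hm : m ∈ S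
    · rw [ext_of_mem _ t hm, ext_of_mem _ t hm]
    · have hl : (G.symm (t, ⟨m, hm⟩)).1 = t := by
        have := hlev (G.symm (t, ⟨m, hm⟩))
        rw [Homeomorph.apply_symm_apply] at this
        exact this.symm
      have h1 : G.symm (t, ⟨m, hm⟩) = (t, (G.symm (t, ⟨m, hm⟩)).2) := Prod.ext hl rfl
      rw [show m = ((⟨m, hm⟩ : ↥(Sᶜ)) : M) from rfl, ext_of_not_mem, ext_of_not_mem, ← h1,
        Homeomorph.apply_symm_apply]
  continuous_toFun := (continuous_ext hSc hSW G hlev hoff).comp (Continuous.prodMk_right t)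
  continuous_invFun := by
    refine (continuous_ext hSc hSW G.symm ?_ ?_).comp (Continuous.prodMk_right t)
    · intro p
      have := hlev (G.symm p)
      rw [Homeomorph.apply_symm_apply] at this
      exact this.symm
    · intro t m hm
      rw [Homeomorph.symm_apply_eq, hoff t m hm]

end Pool.Agent.TubNbhd
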