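import Pool.Agent.TubNbhd.Push

/-! Level preserving homeomorphisms of `I × M`, transport and locally finite infinite products. -/

open Set Topology Filter

namespace Pool.Agent.TubNbhd

section Limit

variable {X : Type*} [TopologicalSpace X]

theorem exists_limit_fun (K : ℕ → X → X) (hc : ∀ n, Continuous (K n))
    (h : ∀ p, ∃ N ∈ 𝓝 p, ∃ n₀, ∀ n ≥ n₀, ∀ q ∈ N, K n q = K n₀ q) :
    ∃ L : X → X, Continuous L ∧ (∀ p, ∃ N ∈ 𝓝 p, ∃ n₀, ∀ n ≥ n₀, ∀ q ∈ N, L q = K n q) := by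
  classical
  have h' : ∀ q, ∃ n₀, ∀ n ≥ n₀, K n q = K n₀ q := by
    intro q
    obtain ⟨N, hN, n₀, hn⟩ := h q
    exact ⟨n₀, fun n hn' => hn n hn' q (mem_of_mem_nhds hN)⟩
  choose ν hν using h'
  have key : ∀ p, ∃ N ∈ 𝓝 p, ∃ n₀, ∀ n ≥ n₀, ∀ q ∈ N, K (ν q) q = K n q := by
    intro p
    obtain ⟨N, hN, n₀, hn⟩ := h p
    refine ⟨N, hN, n₀, fun n hn' q hq => ?_⟩
    have h1 := hν q (max (ν q) n₀) (le_max_left _ _)
    have h2 := hn (max (ν q) n₀) (le_max_right _ _) q hq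
    have h3 := hn n hn' q hq
    rw [← h1, h2, h3]
  refine ⟨fun q => K (ν q) q, ?_, key⟩
  rw [continuous_iff_continuousAt]
  intro p
  obtain ⟨N, hN, n₀, hn⟩ := key p
  refine (hc n₀).continuousAt.congr ?_
  filter_upwards [hN] with q hq
  exact (hn n₀ le_rfl q hq).symm

theorem exists_limit_homeo (H : ℕ → X ≃ₜ X)
    (h1 : ∀ p, ∃ N ∈ 𝓝 p, ∃ n₀, ∀ n ≥ n₀, ∀ q ∈ N, H n q = H n₀ q)
    (h2 : ∀ p, ∃ N ∈ 𝓝 p, ∃ n₀, ∀ n ≥ n₀, ∀ q ∈ N, (H n).symm q = (H n₀).symm q) :
    ∃ L : X ≃ₜ X, (∀ p, ∃ N ∈ 𝓝 p, ∃ n₀, ∀ n ≥ n₀, ∀ q ∈ N, L q = H n q) ∧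
      ∀ p, ∃ n₀, ∀ n ≥ n₀, L.symm p = (H n).symm p := by
  obtain ⟨L, hLc, hL⟩ := exists_limit_fun (fun n => H n) (fun n => (H n).continuous) h1
  obtain ⟨G, hGc, hG⟩ := exists_limit_fun (fun n => (H n).symm) (fun n => (H n).symm.continuous) h2
  refine ⟨⟨⟨L, G, ?_, ?_⟩, hLc, hGc⟩, hL, ?_⟩
  · intro p
    obtain ⟨N, hN, n₀, hn⟩ := hL p
    obtain ⟨N', hN', n₁, hn'⟩ := hG (L p)
    have e1 := hn (max n₀ n₁) (le_max_left _ _) p (mem_of_mem_nhds hN)
    have e2 := hn' (max n₀ n₁) (le_max_right _ _) (L p) (mem_of_mem_nhds hN')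
    rw [e2, e1, Homeomorph.symm_apply_apply]
  · intro p
    obtain ⟨N, hN, n₀, hn⟩ := hG p
    obtain ⟨N', hN', n₁, hn'⟩ := hL (G p)
    have e1 := hn (max n₀ n₁) (le_max_left _ _) p (mem_of_mem_nhds hN)
    have e2 := hn' (max n₀ n₁) (le_max_right _ _) (G p) (mem_of_mem_nhds hN')
    rw [e2, e1, Homeomorph.apply_symm_apply]
  · intro p
    obtain ⟨N, hN, n₀, hn⟩ := hG p
    exact ⟨n₀, fun n hn' => hn n hn' p (mem_of_mem_nhds hN)⟩

end Limit

section Iso

variable {M : Type*} [TopologicalSpace M]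

/-- isotopies as homeomorphisms of `I × M`. -/
abbrev Iso (M : Type*) [TopologicalSpace M] := (unitInterval × M) ≃ₜ (unitInterval × M)

/-- the properties of an equivariant ambient isotopy rel `f`, supported in `W`. -/
structure Good {ι : Type*} (ρ : M → M) (W : Set M) (f : ι → M) (H : Iso M) : Prop where
  level : ∀ p, (H p).1 = p.1
  zero : ∀ m, H (0, m) = (0, m)
  comm : ∀ p : unitInterval × M, H (p.1, ρ p.2) = ((H p).1, ρ (H p).2)
  off : ∀ t, ∀ m ∉ W, H (t, m) = (t, m)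
  fix : ∀ t i, H (t, f i) = (t, f i)

theorem Good.refl {ι : Type*} (ρ : M → M) (W : Set M) (f : ι → M) :
    Good ρ W f (Homeomorph.refl (unitInterval × M)) :=
  ⟨fun _ => rfl, fun _ => rfl, fun _ => rfl, fun _ _ _ => rfl, fun _ _ => rfl⟩

theorem Good.symm {ι : Type*} {ρ : M → M} {W : Set M} {f : ι → M} {H : Iso M}
    (h : Good ρ W f H) : Good ρ W f H.symm := by
  have hl : ∀ p, (H.symm p).1 = p.1 := by
    intro p
    have := h.level (H.symm p)
    rw [H.apply_symm_apply] at this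
    exact this.symm
  refine ⟨hl, ?_, ?_, ?_, ?_⟩
  · intro m
    rw [H.symm_apply_eq, h.zero]
  · intro p
    rw [H.symm_apply_eq]
    have := h.comm (H.symm p)
    rw [H.apply_symm_apply] at this
    rw [this]
  · intro t m hm
    rw [H.symm_apply_eq, h.off t m hm]
  · intro t i
    rw [H.symm_apply_eq, h.fix t i]

theorem Good.trans {ι : Type*} {ρ : M → M} {W : Set M} {f : ι → M} {H K : Iso M}
    (h : Good ρ W f H) (k : Good ρ W f K) : Good ρ W f (H.trans K) := by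
  refine ⟨?_, ?_, ?_, ?_, ?_⟩
  · intro p
    rw [Homeomorph.trans_apply, k.level, h.level]
  · intro m
    rw [Homeomorph.trans_apply, h.zero, k.zero]
  · intro p
    rw [Homeomorph.trans_apply, Homeomorph.trans_apply, h.comm, k.comm (H p)]
  · intro t m hm
    rw [Homeomorph.trans_apply, h.off t m hm, k.off t m hm]
  · intro t i
    rw [Homeomorph.trans_apply, h.fix, k.fix]

variable {Y : Type*} [TopologicalSpace Y] [T2Space M]

/-- transport of an isotopy supported in the compact set `S` along an open embedding. -/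
noncomputable def transportI (φ : Y → M) (hφ : IsOpenEmbedding φ) (τ : Iso Y) (S : Set Y)
    (hSc : IsCompact S) (hS : ∀ p ∉ (univ : Set unitInterval) ×ˢ S, τ p = p) : Iso M :=
  transport (Prod.map id φ) (IsOpenEmbedding.id.prodMap hφ) τ (univ ×ˢ S)
    (isCompact_univ.prod hSc) hS

variable {φ : Y → M} {hφ : IsOpenEmbedding φ} {τ : Iso Y} {S : Set Y}
  {hSc : IsCompact S} {hS : ∀ p ∉ (univ : Set unitInterval) ×ˢ S, τ p = p}

theorem transportI_apply (t : unitInterval) (y : Y) :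
    transportI φ hφ τ S hSc hS (t, φ y) = ((τ (t, y)).1, φ (τ (t, y)).2) :=
  transport_apply (Φ := Prod.map id φ) (t, y)

theorem transportI_symm_apply (t : unitInterval) (y : Y) :
    (transportI φ hφ τ S hSc hS).symm (t, φ y) = ((τ.symm (t, y)).1, φ (τ.symm (t, y)).2) :=
  transport_symm_apply (Φ := Prod.map id φ) (t, y)

theorem transportI_of_not_mem {m : M} (hm : m ∉ φ '' S) (t : unitInterval) :
    transportI φ hφ τ S hSc hS (t, m) = (t, m) := by
  refine transport_of_not_mem ?_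
  rintro ⟨⟨t', y⟩, ⟨_, hy⟩, h⟩
  rw [Prod.map_apply, Prod.mk.injEq] at h
  exact hm ⟨y, hy, h.2⟩

theorem transportI_of_not_mem_range {m : M} (hm : m ∉ range φ) (t : unitInterval) :
    transportI φ hφ τ S hSc hS (t, m) = (t, m) := by
  refine transport_of_not_mem_range ?_
  rintro ⟨⟨t', y⟩, h⟩
  rw [Prod.map_apply, Prod.mk.injEq] at h
  exact hm ⟨y, h.2⟩

theorem transportI_symm_of_not_mem {m : M} (hm : m ∉ φ '' S) (t : unitInterval) :
    (transportI φ hφ τ S hSc hS).symm (t, m) = (t, m) := by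
  rw [Homeomorph.symm_apply_eq]
  exact (transportI_of_not_mem hm t).symm

/-- the transported isotopy has all the properties except the last one. -/
theorem transportI_props (hl : ∀ p, (τ p).1 = p.1) (h0 : ∀ y, τ (0, y) = (0, y)) {ρ : M → M}
    (hρ : ∀ m, ρ (ρ m) = m) {j : Y → Y} (hj : ∀ y, ρ (φ y) = φ (j y))
    (hτj : ∀ p : unitInterval × Y, τ (p.1, j p.2) = ((τ p).1, j (τ p).2)) {W : Set M}
    (hW : φ '' S ⊆ W) {ι : Type*} {f : ι → M}
    (hf : ∀ t i, transportI φ hφ τ S hSc hS (t, f i) = (t, f i)) :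
    Good ρ W f (transportI φ hφ τ S hSc hS) := by
  refine ⟨?_, ?_, ?_, ?_, hf⟩
  · rintro ⟨t, m⟩
    by_cases hm : m ∈ range φ
    · obtain ⟨y, rfl⟩ := hm
      rw [transportI_apply]
      exact hl (t, y)
    · rw [transportI_of_not_mem_range hm]
  · intro m
    by_cases hm : m ∈ range φ
    · obtain ⟨y, rfl⟩ := hm
      rw [transportI_apply, h0]
    · rw [transportI_of_not_mem_range hm]
  · rintro ⟨t, m⟩
    by_cases hm : m ∈ range φ
    · obtain ⟨y, rfl⟩ := hm
      simp only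
      rw [hj, transportI_apply, transportI_apply, hτj (t, y)]
      simp only
      rw [hj]
    · have hm' : ρ m ∉ range φ := by
        rintro ⟨y, hy⟩
        apply hm
        refine ⟨j y, ?_⟩
        rw [← hj, hy, hρ]
      simp only
      rw [transportI_of_not_mem_range hm, transportI_of_not_mem_range hm']
  · intro t m hm
    exact transportI_of_not_mem (fun h => hm (hW h)) t

end Iso

end Pool.Agent.TubNbhd
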