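import Pool.Agent.TubNbhd.Tubes

/-! Local straightening: a transition map that is close to the identity in the Lipschitz sense
near one point of the axis can be made equal to the identity near that point. -/

open Set Topology Filter

namespace Pool.Agent.TubNbhd

section Lip

variable {E : Type*} [NormedAddCommGroup E] [NormedSpace ℝ E]

omit [NormedSpace ℝ E] in
theorem cut_lip {r : ℝ} (hr : 0 < r) (z z' : E) : |cut r z - cut r z'| ≤ 2 / r * ‖z - z'‖ := by
  have h1 : |cut r z - cut r z'| ≤ |2 * ‖z‖ / r - 2 * ‖z'‖ / r| := by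
    unfold cut
    rw [abs_le]
    have h2 := le_abs_self (2 * ‖z‖ / r - 2 * ‖z'‖ / r)
    have h3 := neg_abs_le (2 * ‖z‖ / r - 2 * ‖z'‖ / r)
    simp only [max_def, min_def]
    constructor <;> split_ifs <;> linarith
  refine h1.trans ?_
  have h2 : 2 * ‖z‖ / r - 2 * ‖z'‖ / r = 2 / r * (‖z‖ - ‖z'‖) := by ring
  rw [h2, abs_mul, abs_of_pos (by positivity)]
  exact mul_le_mul_of_nonneg_left (abs_norm_sub_norm_le z z') (by positivity)

/-- the cut-off deviation -/
noncomputable def dev (r : ℝ) (h : E → E) (z : E) : E := cut r z • (h z - z)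

variable {r c : ℝ} {h : E → E}

theorem dev_norm_le (hr : 0 < r) (hc : 0 ≤ c) (h0 : h 0 = 0)
    (hl : ∀ z z', ‖z‖ ≤ r → ‖z'‖ ≤ r → ‖(h z - z) - (h z' - z')‖ ≤ c * ‖z - z'‖) (z : E) :
    ‖dev r h z‖ ≤ c * ‖z‖ ∧ ‖dev r h z‖ ≤ c * r := by
  unfold dev
  rw [norm_smul, Real.norm_eq_abs, abs_of_nonneg (cut_nonneg r z)]
  by_cases hz : ‖z‖ ≤ r
  · have h1 := hl z 0 hz (by rw [norm_zero]; exact hr.le)
    rw [h0, sub_zero, sub_zero, sub_zero] at h1
    have h2 := cut_le_one r z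
    have h3 := cut_nonneg r z
    have h4 : cut r z * ‖h z - z‖ ≤ c * ‖z‖ := by
      calc cut r z * ‖h z - z‖ ≤ 1 * ‖h z - z‖ :=
            mul_le_mul_of_nonneg_right h2 (norm_nonneg _)
        _ ≤ c * ‖z‖ := by rw [one_mul]; exact h1
    exact ⟨h4, h4.trans (mul_le_mul_of_nonneg_left hz hc)⟩
  · rw [cut_eq_zero hr (not_le.1 hz).le, zero_mul]
    exact ⟨by positivity, by positivity⟩

theorem dev_lip (hr : 0 < r) (hc : 0 ≤ c) (h0 : h 0 = 0)
    (hl : ∀ z z', ‖z‖ ≤ r → ‖z'‖ ≤ r → ‖(h z - z) - (h z' - z')‖ ≤ c * ‖z - z'‖) (z z' : E) :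
    ‖dev r h z - dev r h z'‖ ≤ 3 * c * ‖z - z'‖ := by
  have key : ∀ z z', ‖z'‖ ≤ ‖z‖ → ‖dev r h z - dev r h z'‖ ≤ 3 * c * ‖z - z'‖ := by
    intro z z' hzz
    have hn : 0 ≤ c * ‖z - z'‖ := by positivity
    by_cases hz' : ‖z'‖ ≤ r
    · have h1 := hl z' 0 hz' (by rw [norm_zero]; exact hr.le)
      rw [h0, sub_zero, sub_zero, sub_zero] at h1
      have h1' : ‖h z' - z'‖ ≤ c * r := h1.trans (mul_le_mul_of_nonneg_left hz' hc)
      have hcl := cut_lip hr z z'
      have hb : |cut r z - cut r z'| * ‖h z' - z'‖ ≤ 2 * c * ‖z - z'‖ := by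
        calc |cut r z - cut r z'| * ‖h z' - z'‖ ≤ (2 / r * ‖z - z'‖) * (c * r) :=
              mul_le_mul hcl h1' (norm_nonneg _) (by positivity)
          _ = 2 * c * ‖z - z'‖ := by field_simp
      by_cases hz : ‖z‖ ≤ r
      · have h2 := hl z z' hz hz'
        have e1 : dev r h z - dev r h z' = cut r z • ((h z - z) - (h z' - z'))
            + (cut r z - cut r z') • (h z' - z') := by
          unfold dev
          module
        rw [e1]
        refine (norm_add_le _ _).trans ?_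
        rw [norm_smul, norm_smul, Real.norm_eq_abs, Real.norm_eq_abs,
          abs_of_nonneg (cut_nonneg r z)]
        have h3 : cut r z * ‖(h z - z) - (h z' - z')‖ ≤ c * ‖z - z'‖ := by
          calc cut r z * ‖(h z - z) - (h z' - z')‖ ≤ 1 * ‖(h z - z) - (h z' - z')‖ :=
                mul_le_mul_of_nonneg_right (cut_le_one r z) (norm_nonneg _)
            _ ≤ c * ‖z - z'‖ := by rw [one_mul]; exact h2
        linarith
      · have e0 : cut r z = 0 := cut_eq_zero hr (not_le.1 hz).le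
        have e1 : dev r h z - dev r h z' = (cut r z - cut r z') • (h z' - z') := by
          unfold dev
          rw [e0]
          module
        rw [e1, norm_smul, Real.norm_eq_abs]
        linarith
    · have hz : r ≤ ‖z‖ := (not_le.1 hz').le.trans hzz
      unfold dev
      rw [cut_eq_zero hr hz, cut_eq_zero hr (not_le.1 hz').le]
      simp only [zero_smul, sub_zero, norm_zero]
      linarith
  rcases le_total ‖z'‖ ‖z‖ with h1 | h1
  · exact key z z' h1
  · rw [norm_sub_rev, norm_sub_rev z z']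
    exact key z' z h1

/-- the family of maps -/
noncomputable def fam (r : ℝ) (h : E → E) (t : ℝ) (z : E) : E :=
  z + (1 - t * cut (r / 2) z) • dev r h z

theorem fam_lip (hr : 0 < r) (hc : 0 ≤ c) (h0 : h 0 = 0)
    (hl : ∀ z z', ‖z‖ ≤ r → ‖z'‖ ≤ r → ‖(h z - z) - (h z' - z')‖ ≤ c * ‖z - z'‖) {t : ℝ}
    (ht0 : 0 ≤ t) (ht1 : t ≤ 1) (z z' : E) :
    ‖(fam r h t z - z) - (fam r h t z' - z')‖ ≤ 7 * c * ‖z - z'‖ := by
  have hr2 : 0 < r / 2 := by positivity
  have e1 : (fam r h t z - z) - (fam r h t z' - z')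
      = (1 - t * cut (r / 2) z) • (dev r h z - dev r h z')
        + (t * (cut (r / 2) z' - cut (r / 2) z)) • dev r h z' := by
    unfold fam
    module
  rw [e1]
  refine (norm_add_le _ _).trans ?_
  rw [norm_smul, norm_smul, Real.norm_eq_abs, Real.norm_eq_abs]
  have h1 := cut_nonneg (r / 2) z
  have h2 := cut_le_one (r / 2) z
  have h3 : |1 - t * cut (r / 2) z| ≤ 1 := by
    rw [abs_le]
    constructor <;> nlinarith
  have h4 : |t * (cut (r / 2) z' - cut (r / 2) z)| ≤ 2 / (r / 2) * ‖z - z'‖ := by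
    rw [abs_mul, abs_of_nonneg ht0]
    have h5 := cut_lip hr2 z' z
    rw [norm_sub_rev] at h5
    calc t * |cut (r / 2) z' - cut (r / 2) z| ≤ 1 * |cut (r / 2) z' - cut (r / 2) z| :=
          mul_le_mul_of_nonneg_right ht1 (abs_nonneg _)
      _ ≤ _ := by rw [one_mul]; exact h5
  have h6 := dev_lip hr hc h0 hl z z'
  have h7 := (dev_norm_le hr hc h0 hl z').2
  have h8 : |1 - t * cut (r / 2) z| * ‖dev r h z - dev r h z'‖ ≤ 3 * c * ‖z - z'‖ := by
    calc |1 - t * cut (r / 2) z| * ‖dev r h z - dev r h z'‖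
        ≤ 1 * ‖dev r h z - dev r h z'‖ := mul_le_mul_of_nonneg_right h3 (norm_nonneg _)
      _ ≤ _ := by rw [one_mul]; exact h6
  have h9 : |t * (cut (r / 2) z' - cut (r / 2) z)| * ‖dev r h z'‖
      ≤ 2 / (r / 2) * ‖z - z'‖ * (c * r) :=
    mul_le_mul h4 h7 (norm_nonneg _) (by positivity)
  have h10 : 2 / (r / 2) * ‖z - z'‖ * (c * r) = 4 * c * ‖z - z'‖ := by
    field_simp
    ring
  linarith

theorem fam_expand (hr : 0 < r) (hc : 0 ≤ c) (hc' : c ≤ 1 / 14) (h0 : h 0 = 0)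
    (hl : ∀ z z', ‖z‖ ≤ r → ‖z'‖ ≤ r → ‖(h z - z) - (h z' - z')‖ ≤ c * ‖z - z'‖) {t : ℝ}
    (ht0 : 0 ≤ t) (ht1 : t ≤ 1) (z z' : E) :
    (1 / 2) * dist z z' ≤ dist (fam r h t z) (fam r h t z') := by
  rw [dist_eq_norm, dist_eq_norm]
  have h1 := fam_lip hr hc h0 hl ht0 ht1 z z'
  have h2 : z - z' = (fam r h t z - fam r h t z')
      - ((fam r h t z - z) - (fam r h t z' - z')) := by abel
  have h3 : ‖z - z'‖ ≤ ‖fam r h t z - fam r h t z'‖
      + ‖(fam r h t z - z) - (fam r h t z' - z')‖ := by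
    conv_lhs => rw [h2]
    exact norm_sub_le _ _
  have h4 : 7 * c * ‖z - z'‖ ≤ 1 / 2 * ‖z - z'‖ :=
    mul_le_mul_of_nonneg_right (by linarith) (norm_nonneg _)
  linarith

theorem fam_bijective [CompleteSpace E] (hr : 0 < r) (hc : 0 ≤ c) (hc' : c ≤ 1 / 14)
    (h0 : h 0 = 0)
    (hl : ∀ z z', ‖z‖ ≤ r → ‖z'‖ ≤ r → ‖(h z - z) - (h z' - z')‖ ≤ c * ‖z - z'‖) {t : ℝ}
    (ht0 : 0 ≤ t) (ht1 : t ≤ 1) : Function.Bijective (fam r h t) := by
  constructor
  · intro z z' hzz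
    have h1 := fam_expand hr hc hc' h0 hl ht0 ht1 z z'
    rw [hzz, dist_self] at h1
    have h2 : dist z z' ≤ 0 := by linarith
    exact dist_le_zero.1 h2
  · -- contraction
    intro w
    set T : E → E := fun z => w - (fam r h t z - z) with hT
    have hTc : ContractingWith (1 / 2) T := by
      refine ⟨by norm_num, LipschitzWith.of_dist_le_mul ?_⟩
      intro z z'
      rw [dist_eq_norm, dist_eq_norm]
      have h1 := fam_lip hr hc h0 hl ht0 ht1 z' z
      have h2 : T z - T z' = (fam r h t z' - z') - (fam r h t z - z) := by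
        simp only [hT]
        abel
      rw [h2]
      refine h1.trans ?_
      rw [norm_sub_rev z' z]
      have : (((1 / 2 : NNReal)) : ℝ) = 1 / 2 := by norm_num
      rw [this]
      exact mul_le_mul_of_nonneg_right (by linarith) (norm_nonneg _)
    refine ⟨ContractingWith.fixedPoint T hTc, ?_⟩
    have h1 := hTc.fixedPoint_isFixedPt
    have h2 : w - (fam r h t (ContractingWith.fixedPoint T hTc)
      - ContractingWith.fixedPoint T hTc) = ContractingWith.fixedPoint T hTc := h1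
    have h3 := congrArg (fun u => u + (fam r h t (ContractingWith.fixedPoint T hTc)
      - ContractingWith.fixedPoint T hTc)) h2
    simp only [sub_add_cancel, add_sub_cancel] at h3
    exact h3.symm

theorem continuous_dev (hr : 0 < r) (hc : 0 ≤ c) (h0 : h 0 = 0)
    (hl : ∀ z z', ‖z‖ ≤ r → ‖z'‖ ≤ r → ‖(h z - z) - (h z' - z')‖ ≤ c * ‖z - z'‖) :
    Continuous (dev r h) := by
  have h1 : LipschitzWith (3 * c).toNNReal (dev r h) := by
    refine LipschitzWith.of_dist_le_mul fun z z' => ?_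
    rw [dist_eq_norm, dist_eq_norm, Real.coe_toNNReal _ (by positivity)]
    exact dev_lip hr hc h0 hl z z'
  exact h1.continuous

end Lip

section Straighten

variable {M : Type*} [TopologicalSpace M] [T2Space M]
variable {V : Type*} [NormedAddCommGroup V] [NormedSpace ℝ V] [ProperSpace V]

theorem local_straighten {φ ψ : ℝ × V → M} (hφ : IsOpenEmbedding φ)
    (haxis : ∀ x, ψ (x, 0) = φ (x, 0)) {ρ : M → M} (hρ : ∀ m, ρ (ρ m) = m)
    (hρφ : ∀ x v, ρ (φ (x, v)) = φ (x, -v)) (hρψ : ∀ x v, ρ (ψ (x, v)) = ψ (x, -v))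
    {W : Set M} (hW : IsOpen W) (h0W : φ (0, 0) ∈ W) {h : ℝ × V → ℝ × V}
    (hψh : ∀ᶠ z in 𝓝 ((0 : ℝ), (0 : V)), ψ z = φ (h z)) {c : ℝ} (hc : 0 ≤ c) (hc' : c ≤ 1 / 14)
    (hlip : ∃ r > 0, ∀ z z' : ℝ × V, ‖z‖ ≤ r → ‖z'‖ ≤ r →
      ‖(h z - z) - (h z' - z')‖ ≤ c * ‖z - z'‖) :
    ∃ H : Iso M, Good ρ W (fun x : ℝ => φ (x, 0)) H ∧
      ∀ᶠ z in 𝓝 ((0 : ℝ), (0 : V)), H (1, ψ z) = (1, φ z) := by
  classical
  have hinj := hφ.injective
  have hball : ∀ {P : ℝ × V → Prop}, (∀ᶠ z in 𝓝 ((0 : ℝ), (0 : V)), P z) →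
      ∃ r > 0, ∀ z, ‖z‖ ≤ r → P z := by
    intro P hP
    obtain ⟨r, hr, h1⟩ := Metric.nhds_basis_closedBall.mem_iff.1 hP
    refine ⟨r, hr, fun z hz => h1 ?_⟩
    rw [Metric.mem_closedBall, show ((0 : ℝ), (0 : V)) = 0 from rfl, dist_zero_right]
    exact hz
  obtain ⟨r₁, hr₁, hl⟩ := hlip
  obtain ⟨r₂, hr₂, hh⟩ := hball hψh
  have hWev : ∀ᶠ z in 𝓝 ((0 : ℝ), (0 : V)), φ z ∈ W :=
    hφ.continuous.continuousAt.eventually (hW.mem_nhds h0W)
  obtain ⟨r₃, hr₃, hWb⟩ := hball hWev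
  obtain ⟨r, hr, hrr₁, hrr₂, hrr₃⟩ : ∃ r : ℝ, 0 < r ∧ r ≤ r₁ ∧ r ≤ r₂ ∧ r ≤ r₃ :=
    ⟨min r₁ (min r₂ r₃), lt_min hr₁ (lt_min hr₂ hr₃), min_le_left _ _,
      (min_le_right _ _).trans (min_le_left _ _), (min_le_right _ _).trans (min_le_right _ _)⟩
  have hl' : ∀ z z' : ℝ × V, ‖z‖ ≤ r → ‖z'‖ ≤ r → ‖(h z - z) - (h z' - z')‖ ≤ c * ‖z - z'‖ :=
    fun z z' hz hz' => hl z z' (hz.trans hrr₁) (hz'.trans hrr₁)
  have hh' : ∀ z, ‖z‖ ≤ r → ψ z = φ (h z) := fun z hz => hh z (hz.trans hrr₂)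
  have hW' : ∀ z, ‖z‖ ≤ r → φ z ∈ W := fun z hz => hWb z (hz.trans hrr₃)
  have hax : ∀ x : ℝ, |x| ≤ r → h (x, 0) = (x, 0) := by
    intro x hx
    have h1 : ‖((x, 0) : ℝ × V)‖ ≤ r := by
      rw [Prod.norm_def]
      simpa using hx
    have h2 := hh' _ h1
    rw [haxis] at h2
    exact (hinj h2).symm
  have h0 : h 0 = 0 := hax 0 (by rw [abs_zero]; exact hr.le)
  have hnormJ : ∀ z : ℝ × V, ‖((z.1, -z.2) : ℝ × V)‖ = ‖z‖ := by
    intro z
    rw [Prod.norm_def, Prod.norm_def, norm_neg]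
  have hJ : ∀ z : ℝ × V, ‖z‖ ≤ r → h (z.1, -z.2) = ((h z).1, -(h z).2) := by
    intro z hz
    apply hinj
    rw [← hh' _ (by rw [hnormJ]; exact hz), ← hρψ, ← hρφ]
    exact congrArg ρ (hh' z hz)
  -- the families
  have hdc := continuous_dev hr hc h0 hl'
  have hcc := continuous_cut (V := ℝ × V) (r / 2)
  have hfc : Continuous fun p : unitInterval × (ℝ × V) => fam r h (p.1 : ℝ) p.2 := by
    unfold fam
    fun_prop
  have hfc0 : Continuous fun p : unitInterval × (ℝ × V) => fam r h 0 p.2 := by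
    unfold fam
    fun_prop
  set A : Iso (ℝ × V) := levelHomeo (fun p : unitInterval × (ℝ × V) => fam r h (p.1 : ℝ) p.2) hfc
    (fun s => fam_bijective hr hc hc' h0 hl' s.2.1 s.2.2) (1 / 2) (by norm_num)
    (fun s z z' => fam_expand hr hc hc' h0 hl' s.2.1 s.2.2 z z') with hA
  set C : Iso (ℝ × V) := levelHomeo (fun p : unitInterval × (ℝ × V) => fam r h 0 p.2) hfc0
    (fun s => fam_bijective hr hc hc' h0 hl' le_rfl zero_le_one) (1 / 2) (by norm_num)
    (fun s z z' => fam_expand hr hc hc' h0 hl' le_rfl zero_le_one z z') with hC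
  have hAa : ∀ t z, A (t, z) = (t, fam r h (t : ℝ) z) := fun t z => rfl
  have hCa : ∀ t z, C (t, z) = (t, fam r h 0 z) := fun t z => rfl
  have hCs : ∀ t z, C.symm (t, fam r h 0 z) = (t, z) := by
    intro t z
    rw [Homeomorph.symm_apply_eq, hCa]
  have hbij0 : Function.Bijective (fam r h 0) := fam_bijective hr hc hc' h0 hl' le_rfl zero_le_one
  set τ : Iso (ℝ × V) := C.symm.trans A with hτ
  have hτa : ∀ t z, τ (t, fam r h 0 z) = (t, fam r h (t : ℝ) z) := by
    intro t z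
    rw [hτ, Homeomorph.trans_apply, hCs, hAa]
  set S : Set (ℝ × V) := fam r h 0 '' Metric.closedBall 0 (r / 2) with hS
  have hf0c : Continuous (fam r h 0 : ℝ × V → ℝ × V) := by
    unfold fam
    fun_prop
  have hSc : IsCompact S := (isCompact_closedBall 0 (r / 2)).image hf0c
  have hr2 : 0 < r / 2 := by positivity
  have hτS : ∀ p ∉ (univ : Set unitInterval) ×ˢ S, τ p = p := by
    rintro ⟨t, w⟩ hp
    obtain ⟨z, rfl⟩ := hbij0.2 w
    rw [hτa]
    have hz : ¬ ‖z‖ ≤ r / 2 := by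
      intro hz
      exact hp ⟨mem_univ _, z, mem_closedBall_zero_iff.2 hz, rfl⟩
    have h1 : cut (r / 2) z = 0 := cut_eq_zero hr2 (not_le.1 hz).le
    unfold fam
    rw [h1, mul_zero, mul_zero]
  have hφS : φ '' S ⊆ W := by
    rintro _ ⟨_, ⟨z, hz, rfl⟩, rfl⟩
    apply hW'
    rw [mem_closedBall_zero_iff] at hz
    have h1 := (dev_norm_le hr hc h0 hl' z).1
    have h2 : fam r h 0 z = z + dev r h z := by
      unfold fam
      rw [zero_mul, sub_zero, one_smul]
    rw [h2]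
    refine (norm_add_le _ _).trans ?_
    have h3 : c * ‖z‖ ≤ 1 * ‖z‖ := mul_le_mul_of_nonneg_right (by linarith) (norm_nonneg _)
    linarith
  have hlev : ∀ p, (τ p).1 = p.1 := by
    rintro ⟨t, w⟩
    obtain ⟨z, rfl⟩ := hbij0.2 w
    rw [hτa]
  have hzero : ∀ z, τ (0, z) = (0, z) := by
    intro w
    obtain ⟨z, rfl⟩ := hbij0.2 w
    rw [hτa]
    rfl
  have hdevJ : ∀ z : ℝ × V, dev r h (z.1, -z.2) = ((dev r h z).1, -(dev r h z).2) := by
    intro z
    unfold dev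
    by_cases hz : ‖z‖ ≤ r
    · rw [hJ z hz]
      have h1 : cut r ((z.1, -z.2) : ℝ × V) = cut r z := by
        unfold cut
        rw [hnormJ]
      rw [h1]
      ext
      · simp
      · simp only [Prod.snd_sub, Prod.smul_snd, Prod.mk_sub_mk, Prod.smul_mk]
        module
    · rw [cut_eq_zero hr (by rw [hnormJ]; exact (not_le.1 hz).le),
        cut_eq_zero hr (not_le.1 hz).le]
      simp only [zero_smul, Prod.fst_zero, Prod.snd_zero, neg_zero]
      rfl
  have hfamJ : ∀ (t : ℝ) (z : ℝ × V),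
      fam r h t (z.1, -z.2) = ((fam r h t z).1, -(fam r h t z).2) := by
    intro t z
    unfold fam
    have h1 : cut (r / 2) ((z.1, -z.2) : ℝ × V) = cut (r / 2) z := by
      unfold cut
      rw [hnormJ]
    rw [hdevJ, h1]
    ext
    · simp
    · simp only [Prod.snd_add, Prod.smul_snd, Prod.mk_add_mk, Prod.smul_mk]
      module
  have hτj : ∀ p : unitInterval × (ℝ × V),
      τ (p.1, (p.2.1, -p.2.2)) = ((τ p).1, ((τ p).2.1, -(τ p).2.2)) := by
    rintro ⟨t, w⟩
    obtain ⟨z, rfl⟩ := hbij0.2 w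
    simp only
    rw [hτa, ← hfamJ, hτa, hfamJ]
  have hfamax : ∀ (t x : ℝ), fam r h t (x, (0 : V)) = (x, 0) := by
    intro t x
    have h1 : dev r h (x, (0 : V)) = 0 := by
      unfold dev
      by_cases hx : |x| ≤ r
      · rw [hax x hx, sub_self, smul_zero]
      · rw [cut_eq_zero hr, zero_smul]
        rw [Prod.norm_def]
        exact (not_le.1 hx).le.trans (le_max_left _ _)
    unfold fam
    rw [h1, smul_zero, add_zero]
  refine ⟨transportI φ hφ τ S hSc hτS, ?_, ?_⟩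
  · refine transportI_props (φ := φ) hlev hzero hρ (j := fun z => (z.1, -z.2))
      (fun z => hρφ z.1 z.2) hτj hφS ?_
    intro t x
    have h1 : τ (t, (x, (0 : V))) = (t, (x, 0)) := by
      have h2 := hτa t (x, (0 : V))
      rw [hfamax, hfamax] at h2
      exact h2
    rw [transportI_apply, h1]
  · have hsmall : ∀ᶠ z in 𝓝 ((0 : ℝ), (0 : V)), ‖z‖ < r / 4 := by
      have hc2 : Continuous fun z : ℝ × V => ‖z‖ := continuous_norm
      have := hc2.tendsto ((0 : ℝ), (0 : V))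
      rw [show ‖(((0 : ℝ), (0 : V)) : ℝ × V)‖ = 0 from norm_zero] at this
      exact this.eventually_lt_const (by positivity)
    filter_upwards [hsmall] with z hz
    have h1 : fam r h 0 z = h z := by
      unfold fam dev
      rw [zero_mul, sub_zero, one_smul, cut_eq_one hr (by linarith), one_smul]
      abel
    have h2 : fam r h 1 z = z := by
      unfold fam
      rw [cut_eq_one hr2 (by linarith)]
      simp
    rw [hh' z (by linarith), transportI_apply, ← h1, hτa]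
    show ((1 : unitInterval), φ (fam r h ((1 : unitInterval) : ℝ) z)) = (1, φ z)
    rw [Set.Icc.coe_one, h2]

end Straighten

end Pool.Agent.TubNbhd
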