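import Pool.Agent.TubNbhd.Step

/-! The infinite product: agreement near one interval spreads to the whole line. -/

open Set Topology Filter

namespace Pool.Agent.TubNbhd

variable {M : Type*} [TopologicalSpace M] [T2Space M]
variable {V : Type*} [NormedAddCommGroup V] [ProperSpace V]

theorem exists_locallyFinite [LocallyCompactSpace M] [SigmaCompactSpace M] {f : ℝ → M}
    (hf : IsClosedEmbedding f) {W : Set M} (hW : IsOpen W) (hfW : ∀ x, f x ∈ W) :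
    ∃ U : ℕ → Set M, (∀ n, IsOpen (U n)) ∧ (∀ n, U n ⊆ W) ∧
      (∀ n : ℕ, ∀ x, (n : ℝ) ≤ |x| → f x ∈ U n) ∧
      (∀ m, ∃ N ∈ 𝓝 m, ∃ n₀, ∀ n ≥ n₀, ∀ m' ∈ N, m' ∉ U n) := by
  classical
  set K := CompactExhaustion.choice M
  set J : ℕ → Set ℕ := fun n => {j | j ≤ n ∧ Disjoint (K j) (f '' {x | (n : ℝ) ≤ |x|})} with hJ
  have hJf : ∀ n, (J n).Finite := fun n => (Set.finite_Iic n).subset (fun j hj => hj.1)
  refine ⟨fun n => W \ ⋃ j ∈ J n, K j, ?_, ?_, ?_, ?_⟩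
  · intro n
    exact hW.sdiff ((hJf n).isClosed_biUnion (fun j _ => (K.isCompact j).isClosed))
  · intro n
    exact sdiff_subset
  · intro n x hx
    refine ⟨hfW x, ?_⟩
    simp only [mem_iUnion, not_exists]
    intro j hj hxj
    exact Set.disjoint_left.1 hj.2 hxj ⟨x, hx, rfl⟩
  · intro m
    obtain ⟨j, hj⟩ := K.exists_mem m
    have hcomp : IsCompact (f ⁻¹' (K (j + 1))) := hf.isCompact_preimage (K.isCompact (j + 1))
    obtain ⟨R, hR⟩ := hcomp.isBounded.subset_closedBall 0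
    refine ⟨K (j + 1), mem_interior_iff_mem_nhds.1 (K.subset_interior_succ j hj),
      max (j + 1) (⌈R⌉₊ + 1), ?_⟩
    rintro n hn m' hm' ⟨_, h2⟩
    apply h2
    simp only [mem_iUnion]
    refine ⟨j + 1, ⟨(le_max_left _ _).trans hn, ?_⟩, hm'⟩
    rw [Set.disjoint_left]
    rintro _ ha ⟨x, hx, rfl⟩
    have h3 := hR ha
    rw [mem_closedBall_zero_iff, Real.norm_eq_abs] at h3
    have h4 : (⌈R⌉₊ : ℝ) + 1 ≤ n := by
      have := (le_max_right (j + 1) (⌈R⌉₊ + 1)).trans hn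
      exact_mod_cast this
    have h5 := Nat.le_ceil R
    have h6 : (n : ℝ) ≤ |x| := hx
    linarith

theorem push_main [LocallyCompactSpace M] [SigmaCompactSpace M] {φ ψ : ℝ × V → M}
    (hφ : IsOpenEmbedding φ) (hψ : IsOpenEmbedding ψ)
    (haxis : ∀ x, ψ (x, 0) = φ (x, 0)) {ρ : M → M} (hρ : ∀ m, ρ (ρ m) = m)
    (hρφ : ∀ x v, ρ (φ (x, v)) = φ (x, -v)) (hρψ : ∀ x v, ρ (ψ (x, v)) = ψ (x, -v))
    (hcl : IsClosedEmbedding fun x : ℝ => φ (x, 0)) {W : Set M} (hW : IsOpen W)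
    (hφW : ∀ x, φ (x, 0) ∈ W)
    (hag : ∀ x : ℝ, |x| ≤ 1 → ∀ᶠ z in 𝓝 (x, (0 : V)), ψ z = φ z) :
    ∃ H : Iso M, Good ρ W (fun x : ℝ => φ (x, 0)) H ∧
      ∀ x : ℝ, ∀ᶠ z in 𝓝 (x, (0 : V)), H (1, ψ z) = (1, φ z) := by
  classical
  obtain ⟨U, hUo, hUW, hUf, hUl⟩ := exists_locallyFinite hcl hW hφW
  let St : ℕ → Type _ := fun n => {H : Iso M // Good ρ W (fun x : ℝ => φ (x, 0)) H ∧
    Agree φ ψ H (n + 1)}
  have hstep : ∀ n, ∀ H : St n, ∃ H' : St (n + 1),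
      (∀ t, ∀ m ∉ U n, H'.1 (t, m) = H.1 (t, m)) ∧
      (∀ t, ∀ m ∉ U n, H'.1.symm (t, m) = H.1.symm (t, m)) := by
    intro n H
    obtain ⟨H', h1, h2, h3, h4⟩ := step hφ hψ haxis hρ hρφ hρψ (hUo n) (hUW n)
      (N := (n : ℝ) + 1) (by linarith [n.cast_nonneg (α := ℝ)])
      (fun x hx => hUf n x (by linarith)) H.2.1 H.2.2
    refine ⟨⟨H', h1, ?_⟩, h3, h4⟩
    push_cast
    exact h2
  choose next hnext1 hnext2 using hstep
  let init : St 0 := ⟨Homeomorph.refl _, Good.refl _ _ _, by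
    intro x hx
    simp only [Nat.cast_zero, zero_add] at hx
    filter_upwards [hag x hx] with z hz
    rw [hz]
    rfl⟩
  let seq : ∀ n, St n := fun n => Nat.rec init (fun n H => next n H) n
  have hseq : ∀ n, seq (n + 1) = next n (seq n) := fun n => rfl
  have hloc : ∀ m, ∃ N ∈ 𝓝 m, ∃ n₀, ∀ n ≥ n₀, ∀ t, ∀ m' ∈ N,
      (seq n).1 (t, m') = (seq n₀).1 (t, m') ∧ (seq n).1.symm (t, m') = (seq n₀).1.symm (t, m') := by
    intro m
    obtain ⟨N, hN, n₀, hn₀⟩ := hUl m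
    refine ⟨N, hN, n₀, ?_⟩
    intro n hn
    induction n, hn using Nat.le_induction with
    | base => exact fun _ _ _ => ⟨rfl, rfl⟩
    | succ n hn ih =>
      intro t m' hm'
      rw [hseq]
      rw [hnext1 n (seq n) t m' (hn₀ n hn m' hm'), hnext2 n (seq n) t m' (hn₀ n hn m' hm')]
      exact ih t m' hm'
  obtain ⟨L, hL, hLs⟩ := exists_limit_homeo (fun n => (seq n).1) (by
      rintro ⟨t, m⟩
      obtain ⟨N, hN, n₀, h⟩ := hloc m
      exact ⟨univ ×ˢ N, prod_mem_nhds univ_mem hN, n₀, fun n hn q hq => (h n hn q.1 q.2 hq.2).1⟩)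
    (by
      rintro ⟨t, m⟩
      obtain ⟨N, hN, n₀, h⟩ := hloc m
      exact ⟨univ ×ˢ N, prod_mem_nhds univ_mem hN, n₀, fun n hn q hq => (h n hn q.1 q.2 hq.2).2⟩)
  have hL' : ∀ p, ∃ n₀, ∀ n ≥ n₀, L p = (seq n).1 p := by
    intro p
    obtain ⟨N, hN, n₀, h⟩ := hL p
    exact ⟨n₀, fun n hn => h n hn p (mem_of_mem_nhds hN)⟩
  refine ⟨L, ⟨?_, ?_, ?_, ?_, ?_⟩, ?_⟩
  · intro p
    obtain ⟨n, hn⟩ := hL' p
    rw [hn n le_rfl]
    exact (seq n).2.1.level p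
  · intro m
    obtain ⟨n, hn⟩ := hL' (0, m)
    rw [hn n le_rfl]
    exact (seq n).2.1.zero m
  · intro p
    obtain ⟨n, hn⟩ := hL' p
    obtain ⟨n', hn'⟩ := hL' (p.1, ρ p.2)
    rw [hn (max n n') (le_max_left _ _), hn' (max n n') (le_max_right _ _)]
    exact (seq (max n n')).2.1.comm p
  · intro t m hm
    obtain ⟨n, hn⟩ := hL' (t, m)
    rw [hn n le_rfl]
    exact (seq n).2.1.off t m hm
  · intro t x
    obtain ⟨n, hn⟩ := hL' (t, φ (x, 0))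
    rw [hn n le_rfl]
    exact (seq n).2.1.fix t x
  · intro x
    obtain ⟨N, hN, n₀, h⟩ := hL ((1 : unitInterval), ψ (x, 0))
    have h1 : |x| ≤ ((max n₀ ⌈|x|⌉₊ : ℕ) : ℝ) + 1 := by
      have h2 := Nat.le_ceil |x|
      have h3 : ((⌈|x|⌉₊ : ℕ) : ℝ) ≤ ((max n₀ ⌈|x|⌉₊ : ℕ) : ℝ) := by
        exact_mod_cast le_max_right n₀ ⌈|x|⌉₊
      linarith
    have h2 := (seq (max n₀ ⌈|x|⌉₊)).2.2 x h1
    have h3 : ContinuousAt (fun z : ℝ × V => ((1 : unitInterval), ψ z)) (x, 0) := by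
      have := hψ.continuous
      fun_prop
    filter_upwards [h2, h3 hN] with z hz hzN
    rw [h _ (le_max_left _ _) _ hzN]
    exact hz

end Pool.Agent.TubNbhd
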