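import Pool.Agent.TubNbhd.Local

/-! From strict differentiability of the transition map at one point to local equivalence. -/

open Set Topology Filter

namespace Pool.Agent.TubNbhd

theorem local_to_global {M : Type*} [TopologicalSpace M] [T2Space M]
    [SecondCountableTopology M] [LocallyCompactSpace M] {ρ : M ≃ₜ M} (hρ : ∀ m, ρ (ρ m) = m)
    {F : Set M} (hF : IsFixedComponent ρ F) {S : Set M}
    (hS : S = ∅ ∨ ∃ p ∈ F, S = {p} ∧ IsCompact F) (hline : Nonempty (↥(F \ S) ≃ₜ ℝ))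
    (φ ψ : EquivTub ρ F) {q : M} (hqF : q ∈ F) (hqS : q ∉ S) (h : EquivalentNear φ ψ {q}) :
    EquivalentNear φ ψ (F \ S) := by
  obtain ⟨e⟩ := hline
  obtain ⟨H, Θ, hHF, hloc⟩ := h
  obtain ⟨K, hK1, _, hK3⟩ := spread hρ hF.isClosed hF.fixed hS e
    ((φ.raw hρ hF).comp_bundle Θ)
    ((ψ.raw hρ hF).comp_homeo (H.map 1) hHF (H.equivariant 1))
    isOpen_univ (subset_univ F) ⟨q, hqF⟩ hqS (hloc ⟨q, hqF⟩ rfl)
  refine ⟨H.trans K, Θ, ?_, ?_⟩
  · intro x hx
    show K.map 1 (H.map 1 x) = x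
    rw [hHF x hx, hK1 1 x hx]
  · intro x hx
    exact hK3 x hx.2

/-- an ambient isotopy from a level preserving homeomorphism. -/
noncomputable def AmbientIsotopy.ofGood {M : Type*} [TopologicalSpace M] {ρ : M ≃ₜ M}
    {W : Set M} {ι : Type*} {f : ι → M} {H : Iso M} (hH : Good (ρ : M → M) W f H) :
    AmbientIsotopy ρ where
  map t :=
    { toFun := fun m => (H (t, m)).2
      invFun := fun m => (H.symm (t, m)).2
      left_inv := by
        intro m
        have h1 : H (t, m) = (t, (H (t, m)).2) := Prod.ext (hH.level _) rfl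
        show (H.symm (t, (H (t, m)).2)).2 = m
        rw [← h1, Homeomorph.symm_apply_apply]
      right_inv := by
        intro m
        have h1 : H.symm (t, m) = (t, (H.symm (t, m)).2) := Prod.ext (hH.symm.level _) rfl
        show (H (t, (H.symm (t, m)).2)).2 = m
        rw [← h1, Homeomorph.apply_symm_apply]
      continuous_toFun := by
        have := H.continuous
        fun_prop
      continuous_invFun := by
        have := H.symm.continuous
        fun_prop }
  continuous_map := continuous_snd.comp H.continuous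
  map_zero := by
    intro m
    show (H (0, m)).2 = m
    rw [hH.zero]
  equivariant := by
    intro t m
    show (H (t, ρ m)).2 = ρ (H (t, m)).2
    rw [hH.comm (t, m)]

section Deriv

/-- The reflection `(x, v) ↦ (x, -v)`. -/
noncomputable def refl : (ℝ × V3) →L[ℝ] (ℝ × V3) :=
  (ContinuousLinearMap.fst ℝ ℝ V3).prod (-(ContinuousLinearMap.snd ℝ ℝ V3))

theorem refl_apply (z : ℝ × V3) : refl z = (z.1, -z.2) := rfl

/-- shape of the derivative of an equivariant map which is the identity on the axis. -/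
theorem deriv_shape {h : ℝ × V3 → ℝ × V3} {D : (ℝ × V3) →L[ℝ] (ℝ × V3)} {a : ℝ}
    (hD : HasFDerivAt h D (a, 0))
    (hax : ∀ᶠ x in 𝓝 a, h (x, 0) = (x, 0))
    (hJ : ∀ᶠ z in 𝓝 (a, (0 : V3)), h (z.1, -z.2) = ((h z).1, -(h z).2)) :
    D (1, 0) = (1, 0) ∧ ∀ v, (D (0, v)).1 = 0 := by
  constructor
  · have h1 : HasFDerivAt (fun x : ℝ => (x, (0 : V3))) (ContinuousLinearMap.inl ℝ ℝ V3) a :=
      (ContinuousLinearMap.inl ℝ ℝ V3).hasFDerivAt
    have h2 : HasFDerivAt (fun x : ℝ => h (x, (0 : V3)))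
        (D.comp (ContinuousLinearMap.inl ℝ ℝ V3)) a := HasFDerivAt.comp a hD h1
    have h3 : HasFDerivAt (fun x : ℝ => (x, (0 : V3)))
        (D.comp (ContinuousLinearMap.inl ℝ ℝ V3)) a := by
      refine h2.congr_of_eventuallyEq ?_
      filter_upwards [hax] with x hx
      exact hx.symm
    have h4 := h3.unique h1
    have h5 := congrArg (fun L : ℝ →L[ℝ] (ℝ × V3) => L 1) h4
    simpa using h5
  · intro v
    have h1 : HasFDerivAt (fun z : ℝ × V3 => (z.1, -z.2)) refl (a, (0 : V3)) :=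
      refl.hasFDerivAt
    have hD' : HasFDerivAt h D ((fun z : ℝ × V3 => (z.1, -z.2)) (a, (0 : V3))) := by
      simpa using hD
    have h2 : HasFDerivAt (fun z : ℝ × V3 => h (z.1, -z.2)) (D.comp refl) (a, (0 : V3)) :=
      HasFDerivAt.comp (a, (0 : V3)) hD' h1
    have h3 : HasFDerivAt (fun z : ℝ × V3 => ((h z).1, -(h z).2)) (refl.comp D)
        (a, (0 : V3)) := by
      have h4 : HasFDerivAt (fun z : ℝ × V3 => refl z) refl (h (a, 0)) := refl.hasFDerivAt
      exact HasFDerivAt.comp (a, (0 : V3)) h4 hD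
    have h5 : HasFDerivAt (fun z : ℝ × V3 => ((h z).1, -(h z).2)) (D.comp refl)
        (a, (0 : V3)) := by
      refine h2.congr_of_eventuallyEq ?_
      filter_upwards [hJ] with z hz
      exact hz.symm
    have h6 := h3.unique h5
    have h7 := congrArg (fun L : (ℝ × V3) →L[ℝ] (ℝ × V3) => (L (0, v)).1) h6
    simp only [ContinuousLinearMap.comp_apply, refl_apply] at h7
    have h8 : D ((0 : ℝ), -v) = -D (0, v) := by
      rw [← map_neg]
      simp
    rw [h8] at h7
    have h9 : (D (0, v)).1 = -(D (0, v)).1 := h7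
    linarith

end Deriv

/-- A tubular neighbourhood in the coordinate `e` of the line `F \ S`. -/
noncomputable def EquivTub.coord {M : Type*} [TopologicalSpace M] {ρ : M ≃ₜ M} {F S : Set M}
    (φ : EquivTub ρ F) (e : ↥(F \ S) ≃ₜ ℝ) (w : ℝ × V3) : M :=
  φ.toFun (⟨(e.symm w.1 : M), (e.symm w.1).2.1⟩, w.2)

theorem equivalentNear_of_strict {M : Type*} [TopologicalSpace M] [T2Space M]
    {ρ : M ≃ₜ M} (hρ : ∀ m, ρ (ρ m) = m)
    {F : Set M} (hF : IsFixedComponent ρ F) {S : Set M} (hSc : IsClosed S)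
    (e : ↥(F \ S) ≃ₜ ℝ) (φ ψ : EquivTub ρ F) {q : M} (hq : q ∈ F \ S)
    {h : ℝ × V3 → ℝ × V3} (hh : ∀ᶠ w in 𝓝 (e ⟨q, hq⟩, (0 : V3)), ψ.coord e w = φ.coord e (h w))
    (D : (ℝ × V3) ≃L[ℝ] (ℝ × V3))
    (hD : HasStrictFDerivAt h (D : (ℝ × V3) →L[ℝ] (ℝ × V3)) (e ⟨q, hq⟩, (0 : V3))) :
    EquivalentNear φ ψ {q} := by
  classical
  set a : ℝ := e ⟨q, hq⟩ with ha
  -- the open embedding of the chart
  set j : ↥(F \ S) → ↥F := Set.inclusion sdiff_subset with hj
  have hjo : IsOpenEmbedding j := by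
    refine ⟨IsEmbedding.inclusion sdiff_subset, ?_⟩
    have : range j = Subtype.val ⁻¹' (Sᶜ) := by
      rw [hj, Set.range_inclusion]
      ext x
      simp
    rw [this]
    exact hSc.isOpen_compl.preimage continuous_subtype_val
  set J : ℝ × V3 → F × V3 := Prod.map (j ∘ e.symm) id with hJ
  have hJo : IsOpenEmbedding J := (hjo.comp e.symm.isOpenEmbedding).prodMap IsOpenEmbedding.id
  have hφe : ∀ w, φ.coord e w = φ.toFun (J w) := fun _ => rfl
  have hψe : ∀ w, ψ.coord e w = ψ.toFun (J w) := fun _ => rfl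
  have hφr := φ.raw hρ hF
  have hψr := ψ.raw hρ hF
  have hφax : ∀ x, φ.coord e (x, 0) = (e.symm x : M) := fun x => hφr.zero _
  have hψax : ∀ x, ψ.coord e (x, 0) = (e.symm x : M) := fun x => hψr.zero _
  have hφn : ∀ w : ℝ × V3, ρ (φ.coord e w) = φ.coord e (w.1, -w.2) := fun w => hφr.neg _ _
  have hψn : ∀ w : ℝ × V3, ρ (ψ.coord e w) = ψ.coord e (w.1, -w.2) := fun w => hψr.neg _ _
  have hφo : IsOpenEmbedding (φ.coord e) := φ.isOpenEmbedding.comp hJo
  have hinj := hφo.injective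
  -- h on the axis and equivariance
  have hax : ∀ᶠ x in 𝓝 a, h (x, 0) = (x, 0) := by
    have h1 : Tendsto (fun x : ℝ => (x, (0 : V3))) (𝓝 a) (𝓝 (a, 0)) :=
      (Continuous.prodMk_left (0 : V3)).tendsto a
    filter_upwards [h1.eventually hh] with x hx
    apply hinj
    rw [← hx, hψax, hφax]
  have hJh : ∀ᶠ z in 𝓝 (a, (0 : V3)), h (z.1, -z.2) = ((h z).1, -(h z).2) := by
    have h1 : Tendsto (fun z : ℝ × V3 => (z.1, -z.2)) (𝓝 (a, 0)) (𝓝 (a, 0)) := by
      have : Continuous fun z : ℝ × V3 => (z.1, -z.2) := by fun_prop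
      simpa using this.tendsto (a, (0 : V3))
    filter_upwards [hh, h1.eventually hh] with z hz hz'
    apply hinj
    rw [← hz', ← hψn, hz, hφn]
  obtain ⟨hD1, hD2⟩ := deriv_shape hD.hasFDerivAt hax hJh
  have hD1' : D (1, 0) = (1, 0) := hD1
  have hD2' : ∀ v, (D (0, v)).1 = 0 := hD2
  -- the linear map B
  set B : V3 →ₗ[ℝ] V3 :=
    { toFun := fun v => (D (0, v)).2
      map_add' := by
        intro v w
        have : ((0 : ℝ), v + w) = (0, v) + (0, w) := by simp
        rw [this, map_add, Prod.snd_add]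
      map_smul' := by
        intro c v
        have : ((0 : ℝ), c • v) = c • ((0 : ℝ), v) := by simp
        rw [this, map_smul, Prod.smul_snd, RingHom.id_apply] } with hB
  have hDw : ∀ w : ℝ × V3, D w = (w.1, B w.2) := by
    rintro ⟨x, v⟩
    have h1 : ((x, v) : ℝ × V3) = x • ((1 : ℝ), (0 : V3)) + ((0 : ℝ), v) := by simp
    have h2 : D (x, v) = x • D (1, 0) + D (0, v) := by
      conv_lhs => rw [h1]
      rw [map_add, map_smul]
    rw [h2, hD1']
    ext1
    · simp [hD2' v]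
    · simp [hB]
  have hBbij : Function.Bijective B := by
    constructor
    · intro v w hvw
      have h1 : D (0, v) = D (0, w) := by
        rw [hDw, hDw]
        exact Prod.ext rfl hvw
      exact (Prod.ext_iff.1 (D.injective h1)).2
    · intro w
      refine ⟨(D.symm (0, w)).2, ?_⟩
      have h1 := hDw (D.symm (0, w))
      rw [D.apply_symm_apply] at h1
      exact (Prod.ext_iff.1 h1).2.symm
  set BE : V3 ≃L[ℝ] V3 := (LinearEquiv.ofBijective B hBbij).toContinuousLinearEquiv with hBE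
  have hBE' : ∀ v, BE v = B v := fun _ => rfl
  set Θ : BundleIso F :=
    { toHomeo := (Homeomorph.refl F).prodCongr BE.toHomeomorph
      lin := fun _ => B
      apply := fun _ _ => rfl } with hΘ
  have hΘa : ∀ x v, Θ.toHomeo (x, v) = (x, B v) := fun _ _ => rfl
  -- shifted maps
  set sh : (ℝ × V3) ≃ₜ (ℝ × V3) := Homeomorph.addRight ((a, 0) : ℝ × V3) with hsh
  have hsha : ∀ z, sh z = z + (a, 0) := fun _ => rfl
  have hsh0 : sh ((0 : ℝ), (0 : V3)) = (a, 0) := by
    rw [hsha]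
    simp
  set φ₀ : ℝ × V3 → M := fun z => φ.coord e (D (sh z)) with hφ₀
  set ψ₀ : ℝ × V3 → M := fun z => ψ.coord e (sh z) with hψ₀
  set h₀ : ℝ × V3 → ℝ × V3 := fun z => D.symm (h (sh z)) - (a, 0) with hh₀
  have hφ₀o : IsOpenEmbedding φ₀ :=
    hφo.comp (D.toHomeomorph.isOpenEmbedding.comp sh.isOpenEmbedding)
  have hφ₀ax : ∀ x : ℝ, φ₀ (x, 0) = (e.symm (x + a) : M) := by
    intro x
    simp only [hφ₀, hsha]
    rw [hDw]
    simp only [Prod.mk_add_mk, add_zero, map_zero]
    exact hφax _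
  have hψ₀ax : ∀ x : ℝ, ψ₀ (x, 0) = (e.symm (x + a) : M) := by
    intro x
    simp only [hψ₀, hsha]
    simp only [Prod.mk_add_mk, add_zero]
    exact hψax _
  obtain ⟨H, hH, hHag⟩ := local_straighten (φ := φ₀) (ψ := ψ₀) hφ₀o
    (fun x => by rw [hφ₀ax, hψ₀ax]) (ρ := ρ) hρ
    (fun x v => by
      simp only [hφ₀, hsha]
      rw [hφn, hDw, hDw]
      simp)
    (fun x v => by
      simp only [hψ₀, hsha]
      rw [hψn]
      simp)
    (W := Sᶜ) hSc.isOpen_compl
    (by
      rw [hφ₀ax, zero_add, ha, Homeomorph.symm_apply_apply]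
      exact hq.2)
    (h := h₀)
    (by
      have h1 : Tendsto sh (𝓝 ((0 : ℝ), (0 : V3))) (𝓝 (a, 0)) := by
        have := sh.continuous.tendsto ((0 : ℝ), (0 : V3))
        rw [hsh0] at this
        exact this
      filter_upwards [h1.eventually hh] with z hz
      simp only [hψ₀, hφ₀, hh₀, hsha] at hz ⊢
      rw [hz]
      congr 1
      rw [sub_add_cancel, D.apply_symm_apply])
    (c := 1 / 14) (by norm_num) le_rfl
    (by
      have h1 : HasStrictFDerivAt (fun z => D.symm (h z))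
          (ContinuousLinearMap.id ℝ (ℝ × V3)) (a, (0 : V3)) := by
        have h2 := (D.symm : (ℝ × V3) →L[ℝ] (ℝ × V3)).hasStrictFDerivAt.comp (a, (0 : V3)) hD
        have h3 : (D.symm : (ℝ × V3) →L[ℝ] (ℝ × V3)).comp (D : (ℝ × V3) →L[ℝ] (ℝ × V3))
            = ContinuousLinearMap.id ℝ (ℝ × V3) := by
          refine ContinuousLinearMap.ext fun z => ?_
          simp
        rw [h3] at h2
        exact h2
      have h4 := h1.isLittleO.def (c := 1 / 14) (by norm_num)
      rw [nhds_prod_eq] at h4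
      obtain ⟨s, hs, hs'⟩ := Filter.mem_prod_same_iff.1 h4
      obtain ⟨r, hr, hrs⟩ := Metric.nhds_basis_closedBall.mem_iff.1 hs
      refine ⟨r, hr, fun z z' hz hz' => ?_⟩
      have hmem : ∀ z : ℝ × V3, ‖z‖ ≤ r → sh z ∈ s := by
        intro z hz
        apply hrs
        rw [Metric.mem_closedBall, hsha, dist_eq_norm, add_sub_cancel_right]
        exact hz
      have h5 : ‖D.symm (h (sh z)) - D.symm (h (sh z')) - (sh z - sh z')‖
          ≤ 1 / 14 * ‖sh z - sh z'‖ := hs' (Set.mk_mem_prod (hmem z hz) (hmem z' hz'))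
      have h6 : D.symm (h (sh z)) - D.symm (h (sh z')) - (sh z - sh z')
          = (h₀ z - z) - (h₀ z' - z') := by
        simp only [hh₀, hsha]
        abel
      rw [h6] at h5
      have h7 : sh z - sh z' = z - z' := by
        simp only [hsha]
        abel
      rw [h7] at h5
      exact h5)
  refine ⟨AmbientIsotopy.ofGood hH, Θ, ?_, ?_⟩
  · intro x hx
    show (H (1, x)).2 = x
    by_cases hxS : x ∈ S
    · rw [hH.off 1 x (fun h => h hxS)]
    · have h1 := hH.fix 1 (e ⟨x, hx, hxS⟩ - a)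
      rw [hφ₀ax, sub_add_cancel, Homeomorph.symm_apply_apply] at h1
      rw [h1]
  · rintro ⟨x, hx⟩ hxq
    have hxq' : x = q := hxq
    subst hxq'
    show ∀ᶠ z in 𝓝 ((⟨x, hx⟩ : F), (0 : V3)), (H (1, ψ.toFun z)).2 = φ.toFun (Θ.toHomeo z)
    have hJs : (J ∘ sh) ((0 : ℝ), (0 : V3)) = ((⟨x, hx⟩ : F), (0 : V3)) := by
      rw [Function.comp_apply, hsh0, hJ, Prod.map_apply, Function.comp_apply, ha,
        Homeomorph.symm_apply_apply]
      rfl
    have hJso : IsOpenEmbedding (J ∘ sh) := hJo.comp sh.isOpenEmbedding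
    rw [← hJs, ← hJso.map_nhds_eq, Filter.eventually_map]
    filter_upwards [hHag] with z hz
    have h1 : ψ.toFun ((J ∘ sh) z) = ψ₀ z := rfl
    rw [h1, hz]
    show φ₀ z = φ.toFun (Θ.toHomeo (J (sh z)))
    have h2 : Θ.toHomeo (J (sh z)) = J (D (sh z)) := by
      rw [hDw]
      rfl
    rw [h2]
    rfl

end Pool.Agent.TubNbhd
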