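import Pool.Agent.TubNbhd.Transport

/-! The push isotopy along the line. -/

open Set Topology Filter

namespace Pool.Agent.TubNbhd

/-- tent function -/
noncomputable def tent (N y : ℝ) : ℝ := max 0 (min (3 * (y - (N - 1))) ((N + 11 / 2 - y) / 4))

theorem continuous_tent (N : ℝ) : Continuous (tent N) := by
  unfold tent
  fun_prop

theorem tent_nonneg (N y : ℝ) : 0 ≤ tent N y := le_max_left _ _

theorem tent_le (N y : ℝ) : tent N y ≤ 2 := by
  unfold tent
  simp only [max_def, min_def]
  split_ifs <;> linarith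

theorem tent_diff {N x y : ℝ} (h : x ≤ y) : -(1 / 4) * (y - x) ≤ tent N y - tent N x := by
  unfold tent
  simp only [max_def, min_def]
  split_ifs <;> linarith

theorem tent_eq_zero_left {N y : ℝ} (h : y ≤ N - 1) : tent N y = 0 := by
  unfold tent
  simp only [max_def, min_def]
  split_ifs <;> linarith

theorem tent_eq_zero_right {N y : ℝ} (h : N + 11 / 2 ≤ y) : tent N y = 0 := by
  unfold tent
  simp only [max_def, min_def]
  split_ifs <;> linarith

theorem tent_peak (N : ℝ) : tent N (N - 1 / 2) = 3 / 2 := by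
  unfold tent
  simp only [max_def, min_def]
  split_ifs <;> linarith

/-- the odd displacement function -/
noncomputable def odd (N x : ℝ) : ℝ := tent N x - tent N (-x)

theorem continuous_odd (N : ℝ) : Continuous (odd N) := by
  unfold odd
  exact (continuous_tent N).sub ((continuous_tent N).comp continuous_neg)

theorem odd_diff {N x y : ℝ} (h : x ≤ y) : -(1 / 2) * (y - x) ≤ odd N y - odd N x := by
  unfold odd
  have h1 := tent_diff (N := N) h
  have h2 := tent_diff (N := N) (neg_le_neg h)
  linarith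

theorem abs_odd_le (N x : ℝ) : |odd N x| ≤ 2 := by
  unfold odd
  rw [abs_le]
  constructor
  · linarith [tent_nonneg N x, tent_le N (-x)]
  · linarith [tent_nonneg N (-x), tent_le N x]

theorem odd_eq_zero_of_abs_le {N x : ℝ} (h : |x| ≤ N - 1) : odd N x = 0 := by
  obtain ⟨h1, h2⟩ := abs_le.1 h
  unfold odd
  rw [tent_eq_zero_left h2, tent_eq_zero_left (by linarith)]
  simp

theorem odd_eq_zero_of_le_abs {N x : ℝ} (hN : 1 ≤ N) (h : N + 11 / 2 ≤ |x|) : odd N x = 0 := by
  unfold odd
  rcases le_abs.1 h with h | h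
  · rw [tent_eq_zero_right h, tent_eq_zero_left (by linarith)]
    simp
  · rw [tent_eq_zero_right h, tent_eq_zero_left (by linarith)]
    simp

/-- the stretched coordinate -/
noncomputable def str (N s x : ℝ) : ℝ := x + s * odd N x

theorem str_diff {N s x y : ℝ} (h0 : 0 ≤ s) (h1 : s ≤ 1) (h : x ≤ y) :
    (1 / 2) * (y - x) ≤ str N s y - str N s x := by
  unfold str
  have h2 := odd_diff (N := N) h
  have h3 : s * (-(1 / 2) * (y - x)) ≤ s * (odd N y - odd N x) := mul_le_mul_of_nonneg_left h2 h0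
  nlinarith

theorem str_strictMono {N s : ℝ} (h0 : 0 ≤ s) (h1 : s ≤ 1) : StrictMono (str N s) := by
  intro x y h
  have := str_diff (N := N) h0 h1 h.le
  linarith

theorem continuous_str (N s : ℝ) : Continuous (str N s) := by
  unfold str
  exact continuous_id.add (continuous_const.mul (continuous_odd N))

theorem str_bijective {N s : ℝ} (h0 : 0 ≤ s) (h1 : s ≤ 1) : Function.Bijective (str N s) := by
  refine ⟨(str_strictMono h0 h1).injective, ?_⟩
  have hb : ∀ x, |s * odd N x| ≤ 2 := by
    intro x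
    rw [abs_mul, abs_of_nonneg h0]
    have := abs_odd_le N x
    have h3 := abs_nonneg (odd N x)
    nlinarith
  refine (continuous_str N s).surjective ?_ ?_
  · refine tendsto_atTop_mono (fun x => ?_) (tendsto_atTop_add_const_right atTop (-2) tendsto_id)
    unfold str
    have := (abs_le.1 (hb x)).1
    simp only [id]
    linarith
  · refine tendsto_atBot_mono (fun x => ?_) (tendsto_atBot_add_const_right atBot 2 tendsto_id)
    unfold str
    have := (abs_le.1 (hb x)).2
    simp only [id]
    linarith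

theorem str_expand {N s : ℝ} (h0 : 0 ≤ s) (h1 : s ≤ 1) (x y : ℝ) :
    (1 / 2) * dist x y ≤ dist (str N s x) (str N s y) := by
  rw [Real.dist_eq, Real.dist_eq]
  rcases le_total x y with h | h
  · have := str_diff (N := N) h0 h1 h
    rw [abs_sub_comm x y, abs_of_nonneg (by linarith : 0 ≤ y - x)]
    rw [abs_sub_comm]
    exact this.trans (le_abs_self _)
  · have := str_diff (N := N) h0 h1 h
    rw [abs_of_nonneg (by linarith : 0 ≤ x - y)]
    exact this.trans (le_abs_self _)

theorem str_neg (N s x : ℝ) : str N s (-x) = -str N s x := by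
  unfold str odd
  rw [neg_neg]
  ring

theorem str_one_key {N : ℝ} (hN : 1 ≤ N) : str N 1 (N - 1 / 2) = N + 1 := by
  unfold str odd
  rw [tent_peak, tent_eq_zero_left (by linarith : -(N - 1 / 2) ≤ N - 1)]
  ring

theorem abs_le_of_str_one {N x : ℝ} (hN : 1 ≤ N) (h : |str N 1 x| ≤ N + 1) :
    |x| ≤ N - 1 / 2 := by
  obtain ⟨h1, h2⟩ := abs_le.1 h
  have hm := str_strictMono (N := N) (s := 1) zero_le_one le_rfl
  rw [abs_le]
  constructor
  · rw [← hm.le_iff_le, str_neg, str_one_key hN]
    exact h1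
  · rw [← hm.le_iff_le, str_one_key hN]
    exact h2

section

variable {V : Type*} [NormedAddCommGroup V]

/-- radial cut-off -/
noncomputable def cut (ε : ℝ) (v : V) : ℝ := max 0 (min 1 (2 - 2 * ‖v‖ / ε))

theorem continuous_cut (ε : ℝ) : Continuous (cut ε : V → ℝ) := by
  unfold cut
  fun_prop

theorem cut_nonneg (ε : ℝ) (v : V) : 0 ≤ cut ε v := le_max_left _ _

theorem cut_le_one (ε : ℝ) (v : V) : cut ε v ≤ 1 :=
  max_le zero_le_one (min_le_left _ _)

theorem cut_neg (ε : ℝ) (v : V) : cut ε (-v) = cut ε v := by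
  unfold cut
  rw [norm_neg]

theorem cut_eq_one {ε : ℝ} (hε : 0 < ε) {v : V} (h : ‖v‖ ≤ ε / 2) : cut ε v = 1 := by
  unfold cut
  have : 2 * ‖v‖ / ε ≤ 1 := by
    rw [div_le_one hε]
    linarith
  rw [min_eq_left (by linarith), max_eq_right zero_le_one]

theorem cut_zero {ε : ℝ} (hε : 0 < ε) : cut ε (0 : V) = 1 :=
  cut_eq_one hε (by rw [norm_zero]; positivity)

theorem cut_eq_zero {ε : ℝ} (hε : 0 < ε) {v : V} (h : ε ≤ ‖v‖) : cut ε v = 0 := by
  unfold cut
  have : 2 ≤ 2 * ‖v‖ / ε := by
    rw [le_div_iff₀ hε]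
    linarith
  exact max_eq_left ((min_le_right _ _).trans (by linarith))

/-- the parameter of the push -/
noncomputable def par (ε : ℝ) (t : unitInterval) (v : V) : ℝ := (t : ℝ) * cut ε v

theorem par_nonneg (ε : ℝ) (t : unitInterval) (v : V) : 0 ≤ par ε t v :=
  mul_nonneg t.2.1 (cut_nonneg ε v)

theorem par_le_one (ε : ℝ) (t : unitInterval) (v : V) : par ε t v ≤ 1 :=
  mul_le_one₀ t.2.2 (cut_nonneg ε v) (cut_le_one ε v)

/-- the push, in the order `((t, v), x)`. -/
noncomputable def pushAux (N ε : ℝ) :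
    ((unitInterval × V) × ℝ) ≃ₜ ((unitInterval × V) × ℝ) :=
  levelHomeo (fun p : (unitInterval × V) × ℝ => str N (par ε p.1.1 p.1.2) p.2)
    (by
      have h1 := continuous_odd N
      have h2 := continuous_cut (V := V) ε
      unfold str par
      fun_prop)
    (fun s => str_bijective (par_nonneg ε s.1 s.2) (par_le_one ε s.1 s.2)) (1 / 2) (by norm_num)
    (fun s x y => str_expand (par_nonneg ε s.1 s.2) (par_le_one ε s.1 s.2) x y)

/-- reordering -/
def reorder : (unitInterval × (ℝ × V)) ≃ₜ ((unitInterval × V) × ℝ) where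
  toFun p := ((p.1, p.2.2), p.2.1)
  invFun p := (p.1.1, (p.2, p.1.2))
  left_inv := fun _ => rfl
  right_inv := fun _ => rfl
  continuous_toFun := by fun_prop
  continuous_invFun := by fun_prop

/-- the push isotopy, as a level preserving homeomorphism of `I × (ℝ × V)` -/
noncomputable def push (N ε : ℝ) :
    (unitInterval × (ℝ × V)) ≃ₜ (unitInterval × (ℝ × V)) :=
  reorder.trans ((pushAux N ε).trans reorder.symm)

theorem push_apply (N ε : ℝ) (t : unitInterval) (x : ℝ) (v : V) :
    push N ε (t, (x, v)) = (t, (str N (par ε t v) x, v)) := rfl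

/-- the compact set carrying the push -/
def pushSet (N ε : ℝ) : Set (ℝ × V) := {x : ℝ | N - 1 ≤ |x| ∧ |x| ≤ N + 11 / 2} ×ˢ Metric.closedBall 0 ε

theorem isCompact_band (N : ℝ) : IsCompact {x : ℝ | N - 1 ≤ |x| ∧ |x| ≤ N + 11 / 2} := by
  have h1 : IsClosed {x : ℝ | N - 1 ≤ |x| ∧ |x| ≤ N + 11 / 2} :=
    (isClosed_le continuous_const continuous_abs).inter (isClosed_le continuous_abs continuous_const)
  refine (isCompact_Icc (a := -(N + 11 / 2)) (b := N + 11 / 2)).of_isClosed_subset h1 ?_
  intro x hx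
  exact ⟨(abs_le.1 hx.2).1, (abs_le.1 hx.2).2⟩

theorem isCompact_pushSet [ProperSpace V] (N ε : ℝ) : IsCompact (pushSet N ε : Set (ℝ × V)) :=
  (isCompact_band N).prod (isCompact_closedBall 0 ε)

theorem push_of_not_mem {N ε : ℝ} (hN : 1 ≤ N) (hε : 0 < ε) (p : unitInterval × (ℝ × V))
    (hp : p ∉ (univ : Set unitInterval) ×ˢ (pushSet N ε : Set (ℝ × V))) : push N ε p = p := by
  obtain ⟨t, x, v⟩ := p
  rw [push_apply]
  have hkey : par ε t v * odd N x = 0 := by
    simp only [pushSet, mem_prod, mem_univ, true_and, mem_ofPred_eq, Metric.mem_closedBall,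
      dist_zero_right] at hp
    by_cases hv : ‖v‖ ≤ ε
    · have hx : ¬ (N - 1 ≤ |x| ∧ |x| ≤ N + 11 / 2) := fun h => hp ⟨h, hv⟩
      rw [not_and_or, not_le, not_le] at hx
      rcases hx with hx | hx
      · rw [odd_eq_zero_of_abs_le hx.le, mul_zero]
      · rw [odd_eq_zero_of_le_abs hN hx.le, mul_zero]
    · rw [par, cut_eq_zero hε (not_le.1 hv).le]
      ring
  have : str N (par ε t v) x = x := by
    unfold str
    rw [hkey, add_zero]
  rw [this]

theorem push_zero (N ε : ℝ) (z : ℝ × V) : push N ε (0, z) = (0, z) := by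
  obtain ⟨x, v⟩ := z
  rw [push_apply]
  simp [par, str]

theorem push_neg (N ε : ℝ) (t : unitInterval) (x : ℝ) (v : V) :
    push N ε (t, (x, -v)) = (t, (str N (par ε t v) x, -v)) := by
  rw [push_apply, par, par, cut_neg]

theorem push_axis {N ε : ℝ} (hε : 0 < ε) (t : unitInterval) (x : ℝ) :
    push N ε (t, (x, (0 : V))) = (t, (str N t x, 0)) := by
  rw [push_apply, par, cut_zero hε, mul_one]

end

end Pool.Agent.TubNbhd
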