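import Pool.Agent.TubNbhd.Limit

/-! One step of the push, and the infinite product. -/

open Set Topology Filter

namespace Pool.Agent.TubNbhd

variable {M : Type*} [TopologicalSpace M] [T2Space M]
variable {V : Type*} [NormedAddCommGroup V] [ProperSpace V]

omit [ProperSpace V] in
theorem exists_eps {A : Set ℝ} (hA : IsCompact A) {O : Set ((unitInterval × ℝ) × V)}
    (hO : IsOpen O) (h : ∀ t, ∀ x ∈ A, ((t, x), (0 : V)) ∈ O) :
    ∃ ε > 0, ∀ t, ∀ x ∈ A, ∀ v : V, ‖v‖ ≤ ε → ((t, x), v) ∈ O := by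
  have hsub : ((univ : Set unitInterval) ×ˢ A) ×ˢ ({0} : Set V) ⊆ O := by
    rintro ⟨⟨t, x⟩, v⟩ ⟨⟨_, hx⟩, hv⟩
    rw [mem_singleton_iff] at hv
    simp only at hx hv
    subst hv
    exact h t x hx
  obtain ⟨u, v, _, hv, hu', hv', huv⟩ :=
    generalized_tube_lemma (isCompact_univ.prod hA) isCompact_singleton hO hsub
  obtain ⟨ε, hε, hεv⟩ := Metric.nhds_basis_closedBall.mem_iff.1
    (hv.mem_nhds (hv' (mem_singleton (0 : V))))
  refine ⟨ε, hε, fun t x hx w hw => huv ⟨hu' ⟨mem_univ _, hx⟩, hεv ?_⟩⟩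
  rw [mem_closedBall_zero_iff]
  exact hw

/-- agreement of `H₁ ∘ ψ` with `φ` near `[-N, N] × 0`. -/
def Agree (φ ψ : ℝ × V → M) (H : Iso M) (N : ℝ) : Prop :=
  ∀ x : ℝ, |x| ≤ N → ∀ᶠ z in 𝓝 (x, (0 : V)), H (1, ψ z) = (1, φ z)

theorem step {φ ψ : ℝ × V → M} (hφ : IsOpenEmbedding φ) (hψ : IsOpenEmbedding ψ)
    (haxis : ∀ x, ψ (x, 0) = φ (x, 0)) {ρ : M → M} (hρ : ∀ m, ρ (ρ m) = m)
    (hρφ : ∀ x v, ρ (φ (x, v)) = φ (x, -v)) (hρψ : ∀ x v, ρ (ψ (x, v)) = ψ (x, -v))
    {W U : Set M} (hU : IsOpen U) (hUW : U ⊆ W) {N : ℝ} (hN : 1 ≤ N)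
    (haxU : ∀ x, N - 1 ≤ |x| → φ (x, 0) ∈ U) {H : Iso M}
    (hH : Good ρ W (fun x => φ (x, 0)) H) (hag : Agree φ ψ H N) :
    ∃ H' : Iso M, Good ρ W (fun x => φ (x, 0)) H' ∧ Agree φ ψ H' (N + 1) ∧
      (∀ t, ∀ m ∉ U, H' (t, m) = H (t, m)) ∧ (∀ t, ∀ m ∉ U, H'.symm (t, m) = H.symm (t, m)) := by
  classical
  -- choice of ε
  set O : Set ((unitInterval × ℝ) × V) :=
    {p | φ (p.1.2, p.2) ∈ U ∧ ψ (p.1.2, p.2) ∈ U ∧ (H.symm (p.1.1, φ (p.1.2, p.2))).2 ∈ U ∧
      (H (p.1.1, ψ (p.1.2, p.2))).2 ∈ U} with hOdef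
  have hφc := hφ.continuous
  have hψc := hψ.continuous
  have hHc := H.continuous
  have hHc' := H.symm.continuous
  have hOo : IsOpen O := by
    refine (hU.preimage (f := fun p : (unitInterval × ℝ) × V => φ (p.1.2, p.2)) (by fun_prop)).inter
      ((hU.preimage (f := fun p : (unitInterval × ℝ) × V => ψ (p.1.2, p.2)) (by fun_prop)).inter
      ((hU.preimage (f := fun p : (unitInterval × ℝ) × V =>
        (H.symm (p.1.1, φ (p.1.2, p.2))).2) (by fun_prop)).inter
      (hU.preimage (f := fun p : (unitInterval × ℝ) × V =>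
        (H (p.1.1, ψ (p.1.2, p.2))).2) (by fun_prop))))
  obtain ⟨ε, hε, hεO⟩ := exists_eps (V := V) (isCompact_band N) hOo (by
    intro t x hx
    have h1 := haxU x hx.1
    refine ⟨h1, ?_, ?_, ?_⟩
    · show ψ (x, 0) ∈ U
      rw [haxis]
      exact h1
    · show (H.symm (t, φ (x, 0))).2 ∈ U
      rw [hH.symm.fix t x]
      exact h1
    · show (H (t, ψ (x, 0))).2 ∈ U
      rw [haxis, hH.fix t x]
      exact h1)
  have hS : ∀ p ∉ (univ : Set unitInterval) ×ˢ (pushSet N ε : Set (ℝ × V)),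
      push N ε p = p := push_of_not_mem hN hε
  set P : Iso M := transportI φ hφ (push N ε) (pushSet N ε) (isCompact_pushSet N ε) hS with hP
  set Q : Iso M := transportI ψ hψ (push N ε) (pushSet N ε) (isCompact_pushSet N ε) hS with hQ
  have hmemS : ∀ z ∈ (pushSet N ε : Set (ℝ × V)), ∀ t, ((t, z.1), z.2) ∈ O := by
    rintro ⟨x, v⟩ ⟨hx, hv⟩ t
    exact hεO t x hx v (mem_closedBall_zero_iff.1 hv)
  have hφS : φ '' (pushSet N ε) ⊆ U := by
    rintro _ ⟨z, hz, rfl⟩
    exact (hmemS z hz 0).1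
  have hψS : ψ '' (pushSet N ε) ⊆ U := by
    rintro _ ⟨z, hz, rfl⟩
    exact (hmemS z hz 0).2.1
  have hlev : ∀ p : unitInterval × (ℝ × V), (push N ε p).1 = p.1 := fun p => rfl
  have hlev' : ∀ p : unitInterval × (ℝ × V), ((push N ε).symm p).1 = p.1 := by
    intro p
    have := hlev ((push N ε).symm p)
    rw [Homeomorph.apply_symm_apply] at this
    exact this.symm
  have hτj : ∀ p : unitInterval × (ℝ × V),
      push N ε (p.1, (p.2.1, -p.2.2)) = ((push N ε p).1, ((push N ε p).2.1, -(push N ε p).2.2)) := by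
    rintro ⟨t, x, v⟩
    rw [push_neg, push_apply]
  have hPg : Good ρ W (fun x : ℝ => φ (x, 0)) Q.symm → Good ρ W (fun x : ℝ => φ (x, 0)) Q :=
    fun h => by simpa using h.symm
  -- properties of P and Q as isotopies supported in W (no fixed points claimed)
  have hPg' : Good ρ W (fun i : Empty => i.elim) P :=
    transportI_props hlev (push_zero N ε) hρ (j := fun z => (z.1, -z.2))
      (fun z => hρφ z.1 z.2) hτj (hφS.trans hUW) (fun _ i => i.elim)
  have hQg' : Good ρ W (fun i : Empty => i.elim) Q :=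
    transportI_props hlev (push_zero N ε) hρ (j := fun z => (z.1, -z.2))
      (fun z => hρψ z.1 z.2) hτj (hψS.trans hUW) (fun _ i => i.elim)
  have hH' : Good ρ W (fun i : Empty => i.elim) H :=
    ⟨hH.level, hH.zero, hH.comm, hH.off, fun _ i => i.elim⟩
  have hG' := (hQg'.symm.trans hH').trans hPg'
  set H' : Iso M := (Q.symm.trans H).trans P with hH'def
  have happ : ∀ p, H' p = P (H (Q.symm p)) := fun p => rfl
  have happs : ∀ p, H'.symm p = Q (H.symm (P.symm p)) := fun p => rfl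
  -- behaviour of Q.symm on the chart
  have hQs : ∀ t z, Q.symm (t, ψ z) = (t, ψ ((push N ε).symm (t, z)).2) := by
    intro t z
    rw [hQ, transportI_symm_apply, hlev']
  have hPa : ∀ t z, P (t, φ z) = (t, φ (push N ε (t, z)).2) := by
    intro t z
    rw [hP, transportI_apply, hlev]
  refine ⟨H', ⟨hG'.level, hG'.zero, hG'.comm, hG'.off, ?_⟩, ?_, ?_, ?_⟩
  · -- fixes the axis
    intro t x
    obtain ⟨x', hx'⟩ := (str_bijective (N := N) t.2.1 t.2.2).2 x
    have h1 : (push N ε).symm (t, (x, (0 : V))) = (t, (x', 0)) := by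
      rw [Homeomorph.symm_apply_eq, push_axis hε, hx']
    rw [happ]
    have h2 : Q.symm (t, φ (x, 0)) = (t, φ (x', 0)) := by
      rw [← haxis, hQs, h1, haxis]
    rw [h2, hH.fix t x', hPa, push_axis hε, hx']
  · -- agreement
    intro y hy
    obtain ⟨x, hx⟩ := (str_bijective (N := N) (s := 1) zero_le_one le_rfl).2 y
    have hxN : |x| ≤ N := by
      have := abs_le_of_str_one hN (x := x) (by rw [hx]; exact hy)
      linarith
    have hg : Continuous fun z : ℝ × V => ((push N ε).symm ((1 : unitInterval), z)).2 := by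
      have := (push N ε : Iso (ℝ × V)).symm.continuous
      fun_prop
    have hgy : ((push N ε).symm ((1 : unitInterval), (y, (0 : V)))).2 = (x, 0) := by
      have : (push N ε).symm ((1 : unitInterval), (y, (0 : V))) = (1, (x, 0)) := by
        rw [Homeomorph.symm_apply_eq, push_axis hε]
        simp [hx]
      rw [this]
    have hev := (hg.tendsto (y, (0 : V))).eventually (p := fun w => H (1, ψ w) = (1, φ w))
      (by rw [hgy]; exact hag x hxN)
    filter_upwards [hev] with z hz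
    rw [happ, hQs, hz, hPa]
    congr 2
    have h3 : (1, ((push N ε).symm ((1 : unitInterval), z)).2)
        = (push N ε).symm ((1 : unitInterval), z) := by
      ext1
      · exact (hlev' _).symm
      · rfl
    rw [h3, Homeomorph.apply_symm_apply]
  · -- off U
    intro t m hm
    have h1 : Q.symm (t, m) = (t, m) := transportI_symm_of_not_mem (fun h => hm (hψS h)) t
    rw [happ, h1]
    have h2 : (H (t, m)).1 = t := hH.level _
    have h3 : H (t, m) = (t, (H (t, m)).2) := by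
      ext1
      · exact h2
      · rfl
    rw [h3]
    refine transportI_of_not_mem ?_ t
    rintro ⟨z, hz, hzm⟩
    have h4 := (hmemS z hz t).2.2.1
    have h5 : H.symm (t, φ (z.1, z.2)) = (t, m) := by
      rw [Homeomorph.symm_apply_eq, h3]
      exact Prod.ext rfl hzm
    simp only at h4
    rw [h5] at h4
    exact hm h4
  · intro t m hm
    have h1 : P.symm (t, m) = (t, m) := transportI_symm_of_not_mem (fun h => hm (hφS h)) t
    rw [happs, h1]
    have h2 : (H.symm (t, m)).1 = t := hH.symm.level _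
    have h3 : H.symm (t, m) = (t, (H.symm (t, m)).2) := by
      ext1
      · exact h2
      · rfl
    rw [h3]
    refine transportI_of_not_mem ?_ t
    rintro ⟨z, hz, hzm⟩
    have h4 := (hmemS z hz t).2.2.2
    have h5 : H (t, ψ (z.1, z.2)) = (t, m) := by
      rw [← Homeomorph.eq_symm_apply, h3]
      exact Prod.ext rfl hzm
    simp only at h4
    rw [h5] at h4
    exact hm h4

end Pool.Agent.TubNbhd
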