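import Mathlib

/-! Transport of compactly supported homeomorphisms along open embeddings, level preserving
homeomorphisms, and the push isotopy. -/

open Set Topology Filter

namespace Pool.Agent.TubNbhd

section Transport

variable {Y X : Type*} [TopologicalSpace Y] [TopologicalSpace X]

open Classical in
/-- The map `Φ ∘ τ ∘ Φ⁻¹` extended by the identity. -/
noncomputable def tFun (Φ : Y → X) (τ : Y → Y) (x : X) : X :=
  if h : ∃ y, Φ y = x then Φ (τ h.choose) else x

theorem tFun_apply {Φ : Y → X} (hΦ : Function.Injective Φ) (τ : Y → Y) (y : Y) :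
    tFun Φ τ (Φ y) = Φ (τ y) := by
  have h : ∃ y', Φ y' = Φ y := ⟨y, rfl⟩
  unfold tFun
  rw [dif_pos h]
  congr 2
  exact hΦ h.choose_spec

theorem tFun_of_not_mem {Φ : Y → X} {τ : Y → Y} {x : X} (hx : x ∉ range Φ) :
    tFun Φ τ x = x := by
  unfold tFun
  rw [dif_neg]
  exact hx

theorem tFun_of_not_mem_image {Φ : Y → X} (hΦ : Function.Injective Φ) {τ : Y → Y} {K : Set Y}
    (hK : ∀ y ∉ K, τ y = y) {x : X} (hx : x ∉ Φ '' K) : tFun Φ τ x = x := by
  by_cases h : x ∈ range Φ
  · obtain ⟨y, rfl⟩ := h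
    rw [tFun_apply hΦ, hK]
    intro hy
    exact hx ⟨y, hy, rfl⟩
  · exact tFun_of_not_mem h

theorem continuous_tFun [T2Space X] {Φ : Y → X} (hΦ : IsOpenEmbedding Φ) {τ : Y → Y}
    (hτ : Continuous τ) {K : Set Y} (hKc : IsCompact K) (hK : ∀ y ∉ K, τ y = y) :
    Continuous (tFun Φ τ) := by
  rw [continuous_iff_continuousAt]
  intro x
  by_cases h : x ∈ range Φ
  · obtain ⟨y, rfl⟩ := h
    rw [← hΦ.continuousAt_iff]
    have : tFun Φ τ ∘ Φ = Φ ∘ τ := by
      funext z
      exact tFun_apply hΦ.injective τ z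
    rw [this]
    exact (hΦ.continuous.comp hτ).continuousAt
  · have hcl : IsClosed (Φ '' K) := (hKc.image hΦ.continuous).isClosed
    have hx : x ∈ (Φ '' K)ᶜ := by
      rintro ⟨y, _, rfl⟩
      exact h ⟨y, rfl⟩
    have hev : tFun Φ τ =ᶠ[𝓝 x] id := by
      filter_upwards [hcl.isOpen_compl.mem_nhds hx] with z hz
      exact tFun_of_not_mem_image hΦ.injective hK hz
    exact continuousAt_id.congr hev.symm

/-- The homeomorphism `Φ ∘ τ ∘ Φ⁻¹` extended by the identity. -/
noncomputable def transport [T2Space X] (Φ : Y → X) (hΦ : IsOpenEmbedding Φ) (τ : Y ≃ₜ Y)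
    (K : Set Y) (hKc : IsCompact K) (hK : ∀ y ∉ K, τ y = y) : X ≃ₜ X where
  toFun := tFun Φ τ
  invFun := tFun Φ τ.symm
  left_inv := by
    intro x
    by_cases h : x ∈ range Φ
    · obtain ⟨y, rfl⟩ := h
      rw [tFun_apply hΦ.injective, tFun_apply hΦ.injective, τ.symm_apply_apply]
    · rw [tFun_of_not_mem h, tFun_of_not_mem h]
  right_inv := by
    intro x
    by_cases h : x ∈ range Φ
    · obtain ⟨y, rfl⟩ := h
      rw [tFun_apply hΦ.injective, tFun_apply hΦ.injective, τ.apply_symm_apply]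
    · rw [tFun_of_not_mem h, tFun_of_not_mem h]
  continuous_toFun := continuous_tFun hΦ τ.continuous hKc hK
  continuous_invFun := by
    refine continuous_tFun hΦ τ.symm.continuous hKc ?_
    intro y hy
    rw [Homeomorph.symm_apply_eq]
    exact (hK y hy).symm

variable [T2Space X] {Φ : Y → X} {hΦ : IsOpenEmbedding Φ} {τ : Y ≃ₜ Y} {K : Set Y}
  {hKc : IsCompact K} {hK : ∀ y ∉ K, τ y = y}

theorem transport_apply (y : Y) : transport Φ hΦ τ K hKc hK (Φ y) = Φ (τ y) :=
  tFun_apply hΦ.injective τ y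

theorem transport_symm_apply (y : Y) :
    (transport Φ hΦ τ K hKc hK).symm (Φ y) = Φ (τ.symm y) :=
  tFun_apply hΦ.injective τ.symm y

theorem transport_of_not_mem {x : X} (hx : x ∉ Φ '' K) : transport Φ hΦ τ K hKc hK x = x :=
  tFun_of_not_mem_image hΦ.injective hK hx

theorem transport_of_not_mem_range {x : X} (hx : x ∉ range Φ) :
    transport Φ hΦ τ K hKc hK x = x :=
  tFun_of_not_mem hx

theorem transport_symm_of_not_mem {x : X} (hx : x ∉ Φ '' K) :
    (transport Φ hΦ τ K hKc hK).symm x = x := by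
  rw [Homeomorph.symm_apply_eq]
  exact (transport_of_not_mem hx).symm

end Transport

section Level

variable {S E : Type*} [TopologicalSpace S] [MetricSpace E]

/-- A continuous family of bijections which is uniformly expanding is a homeomorphism. -/
noncomputable def levelHomeo (F : S × E → E) (hF : Continuous F)
    (hbij : ∀ s, Function.Bijective fun x => F (s, x)) (κ : ℝ) (hκ : 0 < κ)
    (hanti : ∀ s x y, κ * dist x y ≤ dist (F (s, x)) (F (s, y))) : (S × E) ≃ₜ (S × E) where
  toFun p := (p.1, F p)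
  invFun p := (p.1, (Equiv.ofBijective _ (hbij p.1)).symm p.2)
  left_inv := by
    rintro ⟨s, x⟩
    simp only [Prod.mk.injEq, true_and]
    rw [Equiv.symm_apply_eq]
    rfl
  right_inv := by
    rintro ⟨s, x⟩
    simp only [Prod.mk.injEq, true_and]
    exact (Equiv.ofBijective _ (hbij s)).apply_symm_apply x
  continuous_toFun := continuous_fst.prodMk hF
  continuous_invFun := by
    refine continuous_fst.prodMk ?_
    rw [continuous_iff_continuousAt]
    rintro ⟨s₀, y₀⟩
    set inv : S → E → E := fun s => (Equiv.ofBijective _ (hbij s)).symm with hinv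
    have hFi : ∀ s y, F (s, inv s y) = y := fun s y =>
      (Equiv.ofBijective _ (hbij s)).apply_symm_apply y
    set x₀ := inv s₀ y₀ with hx₀
    change Tendsto (fun p : S × E => inv p.1 p.2) (𝓝 (s₀, y₀)) (𝓝 x₀)
    rw [tendsto_iff_dist_tendsto_zero]
    have hlim : Tendsto (fun p : S × E => κ⁻¹ * dist p.2 (F (p.1, x₀))) (𝓝 (s₀, y₀)) (𝓝 0) := by
      have hc : Continuous fun p : S × E => κ⁻¹ * dist p.2 (F (p.1, x₀)) := by fun_prop
      have := hc.tendsto (s₀, y₀)
      simpa [hx₀, hFi] using this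
    refine squeeze_zero (fun _ => dist_nonneg) ?_ hlim
    rintro ⟨s, y⟩
    have h1 := hanti s (inv s y) x₀
    rw [hFi] at h1
    simp only
    rw [← div_eq_inv_mul, le_div_iff₀ hκ]
    linarith

theorem levelHomeo_apply (F : S × E → E) (hF : Continuous F)
    (hbij : ∀ s, Function.Bijective fun x => F (s, x)) (κ : ℝ) (hκ : 0 < κ)
    (hanti : ∀ s x y, κ * dist x y ≤ dist (F (s, x)) (F (s, y))) (p : S × E) :
    levelHomeo F hF hbij κ hκ hanti p = (p.1, F p) := rfl

end Level

end Pool.Agent.TubNbhd
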