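import Pool.Agent.TubNbhd.Assemble

/-! Equivariant tubular neighbourhoods as raw tubes. -/

open Set Topology Filter

namespace Pool.Agent.TubNbhd

variable {M : Type*} [TopologicalSpace M]

theorem IsFixedComponent.fixed {ρ : M ≃ₜ M} {F : Set M} (hF : IsFixedComponent ρ F) :
    ∀ x ∈ F, ρ x = x := by
  obtain ⟨x₀, _, rfl⟩ := hF
  intro x hx
  have h := connectedComponentIn_subset {m | ρ m = m} x₀ hx
  exact h

theorem IsFixedComponent.isClosed [T2Space M] {ρ : M ≃ₜ M} {F : Set M}
    (hF : IsFixedComponent ρ F) : IsClosed F := by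
  obtain ⟨x₀, hx₀, rfl⟩ := hF
  have hfc : IsClosed {m | ρ m = m} := isClosed_eq ρ.continuous continuous_id
  have h1 : IsPreconnected (closure (connectedComponentIn {m | ρ m = m} x₀)) :=
    isPreconnected_connectedComponentIn.closure
  have h2 : closure (connectedComponentIn {m | ρ m = m} x₀) ⊆ {m | ρ m = m} :=
    closure_minimal (connectedComponentIn_subset _ _) hfc
  have h3 : x₀ ∈ closure (connectedComponentIn {m | ρ m = m} x₀) :=
    subset_closure (mem_connectedComponentIn hx₀)
  exact closure_subset_iff_isClosed.1 (h1.subset_connectedComponentIn h3 h2)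

theorem IsFixedComponent.maximal {ρ : M ≃ₜ M} {F : Set M} (hF : IsFixedComponent ρ F)
    {C : Set M} (hC : IsPreconnected C) (hfix : ∀ x ∈ C, ρ x = x) {x : M} (hx : x ∈ F)
    (hxC : x ∈ C) : C ⊆ F := by
  obtain ⟨x₀, _, rfl⟩ := hF
  rw [connectedComponentIn_eq hx]
  exact hC.subset_connectedComponentIn hxC hfix

/-- the fibrewise linear involution is `-1`. -/
theorem EquivTub.lin_eq {ρ : M ≃ₜ M} (hρ : ∀ m, ρ (ρ m) = m) {F : Set M}
    (hF : IsFixedComponent ρ F) (φ : EquivTub ρ F) (x : F) (v : V3) : φ.lin x v = -v := by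
  have hinj := φ.isOpenEmbedding.injective
  have hss : φ.lin x (φ.lin x v) = v := by
    have h1 := hρ (φ.toFun (x, v))
    rw [φ.equivariant, φ.equivariant] at h1
    have h2 := hinj h1
    exact (Prod.ext_iff.1 h2).2
  set w := v + φ.lin x v with hw
  have hσw : φ.lin x w = w := by
    rw [hw, map_add, hss, add_comm]
  have hcont : Continuous fun s : ℝ => φ.toFun (x, s • w) := by
    have := φ.isOpenEmbedding.continuous
    fun_prop
  set C : Set M := (fun s : ℝ => φ.toFun (x, s • w)) '' univ with hC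
  have hCc : IsPreconnected C := isPreconnected_univ.image _ hcont.continuousOn
  have hCf : ∀ y ∈ C, ρ y = y := by
    rintro _ ⟨s, _, rfl⟩
    simp only
    rw [φ.equivariant, map_smul, hσw]
  have hxC : (x : M) ∈ C := ⟨0, mem_univ _, by simp [φ.zero_section]⟩
  have hsub := hF.maximal hCc hCf x.2 hxC
  have h1 : φ.toFun (x, w) ∈ F := hsub ⟨1, mem_univ _, by simp⟩
  have h2 : φ.toFun (x, w) = φ.toFun (⟨_, h1⟩, 0) := by
    rw [φ.zero_section]
  have h3 := (Prod.ext_iff.1 (hinj h2)).2
  simp only at h3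
  rw [hw] at h3
  exact (neg_eq_of_add_eq_zero_right h3).symm

theorem EquivTub.raw {ρ : M ≃ₜ M} (hρ : ∀ m, ρ (ρ m) = m) {F : Set M}
    (hF : IsFixedComponent ρ F) (φ : EquivTub ρ F) : RawTube ρ F φ.toFun :=
  ⟨φ.isOpenEmbedding, φ.zero_section, fun x v => by rw [φ.equivariant, φ.lin_eq hρ hF]⟩

theorem RawTube.comp_bundle {ρ : M ≃ₜ M} {F : Set M} {g : F × V3 → M} (hg : RawTube ρ F g)
    (Θ : BundleIso F) : RawTube ρ F (fun z => g (Θ.toHomeo z)) := by
  refine ⟨hg.emb.comp Θ.toHomeo.isOpenEmbedding, ?_, ?_⟩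
  · intro x
    rw [Θ.apply, map_zero, hg.zero]
  · intro x v
    simp only [Θ.apply, map_neg]
    exact hg.neg _ _

theorem RawTube.comp_homeo {ρ : M ≃ₜ M} {F : Set M} {g : F × V3 → M} (hg : RawTube ρ F g)
    (h : M ≃ₜ M) (hfix : ∀ x ∈ F, h x = x) (hcomm : ∀ m, h (ρ m) = ρ (h m)) :
    RawTube ρ F (fun z => h (g z)) := by
  refine ⟨h.isOpenEmbedding.comp hg.emb, ?_, ?_⟩
  · intro x
    rw [hg.zero, hfix x x.2]
  · intro x v
    rw [← hcomm, hg.neg]

/-- concatenation (pointwise composition) of ambient isotopies -/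
noncomputable def AmbientIsotopy.trans {ρ : M ≃ₜ M} (H K : AmbientIsotopy ρ) :
    AmbientIsotopy ρ where
  map t := (H.map t).trans (K.map t)
  continuous_map := by
    have h1 := H.continuous_map
    have h2 := K.continuous_map
    exact h2.comp (continuous_fst.prodMk h1)
  map_zero := by
    intro m
    rw [Homeomorph.trans_apply, H.map_zero, K.map_zero]
  equivariant := by
    intro t m
    rw [Homeomorph.trans_apply, H.equivariant, K.equivariant, Homeomorph.trans_apply]

end Pool.Agent.TubNbhd
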